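import Mathlib

/-!
# Ordered triples of colours: the geometry of arcs and directed triangles

The points of the geometry are the arcs `a → b` of the complete digraph with `k` vertices, the lines
are the directed triangles; a flag (arc in a directed triangle `a → b → c → a`) is an ordered triple.
-/

set_option autoImplicit false

namespace Pool.Agent.Q227.ST

/-- ordered triples of different colours: the arc `(a, b)` of the directed triangle
`a → b → c → a` -/
@[ext] structure Tri (k : ℕ) where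
  /-- the tail -/
  a : Fin k
  /-- the head -/
  b : Fin k
  /-- the third vertex of the triangle -/
  c : Fin k
  ab : a ≠ b
  bc : b ≠ c
  ac : a ≠ c

instance (k : ℕ) : DecidableEq (Tri k) := fun s t =>
  decidable_of_iff (s.a = t.a ∧ s.b = t.b ∧ s.c = t.c)
    ⟨fun h => Tri.ext h.1 h.2.1 h.2.2, fun h => by subst h; exact ⟨rfl, rfl, rfl⟩⟩

noncomputable instance (k : ℕ) : Fintype (Tri k) :=
  Fintype.ofInjective (fun t : Tri k => (t.a, t.b, t.c)) fun s t h => by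
    simp only [Prod.mk.injEq] at h
    exact Tri.ext h.1 h.2.1 h.2.2

variable {k : ℕ}

/-- the next arc of the triangle -/
def rot (t : Tri k) : Tri k := ⟨t.b, t.c, t.a, t.bc, t.ac.symm, t.ab.symm⟩

/-- the reversed arc in the reversed triangle -/
def rev (t : Tri k) : Tri k := ⟨t.b, t.a, t.c, t.ab.symm, t.ac, t.bc⟩

/-- the same arc -/
def Arc (s t : Tri k) : Prop := s.a = t.a ∧ s.b = t.b

@[simp] theorem rot3 (t : Tri k) : rot (rot (rot t)) = t := rfl

@[simp] theorem rev2 (t : Tri k) : rev (rev t) = t := rfl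

theorem rot_inj {s t : Tri k} (h : rot s = rot t) : s = t := by
  have h2 := congrArg (fun u => rot (rot u)) h
  exact h2

theorem rot_ne (t : Tri k) : rot t ≠ t := fun h => t.ab (congrArg Tri.a h).symm

theorem rot2_ne (t : Tri k) : rot (rot t) ≠ t := fun h => t.ac (congrArg Tri.a h).symm

theorem rot2_ne_rot (t : Tri k) : rot (rot t) ≠ rot t := rot_ne (rot t)

theorem Arc.refl (t : Tri k) : Arc t t := ⟨rfl, rfl⟩

theorem Arc.symm {s t : Tri k} (h : Arc s t) : Arc t s := ⟨h.1.symm, h.2.symm⟩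

theorem Arc.trans {s t u : Tri k} (h : Arc s t) (h' : Arc t u) : Arc s u :=
  ⟨h.1.trans h'.1, h.2.trans h'.2⟩

theorem Arc.eq {s t : Tri k} (h : Arc s t) (h' : s.c = t.c) : s = t := Tri.ext h.1 h.2 h'

/-- a colour outside a small set -/
theorem exists_out (s : Finset (Fin k)) (h : s.card < k) : ∃ x, x ∉ s := by
  by_contra hcon
  push Not at hcon
  have h1 : (Finset.univ : Finset (Fin k)).card ≤ s.card :=
    Finset.card_le_card fun x _ => hcon x
  rw [Finset.card_univ, Fintype.card_fin] at h1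
  omega

theorem exists4 (hk : 5 ≤ k) (a b c d : Fin k) : ∃ x : Fin k, x ≠ a ∧ x ≠ b ∧ x ≠ c ∧ x ≠ d := by
  classical
  obtain ⟨x, hx⟩ := exists_out ({a, b, c, d} : Finset (Fin k)) (by
    have := Finset.card_le_four (a := a) (b := b) (c := c) (d := d)
    omega)
  simp only [Finset.mem_insert, Finset.mem_singleton, not_or] at hx
  exact ⟨x, hx.1, hx.2.1, hx.2.2.1, hx.2.2.2⟩

/-- a property of arcs which is the same for the arcs of each triangle is constant -/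
theorem const_of_rot (hk : 5 ≤ k) {α : Tri k → Prop} (hα : ∀ s t, Arc s t → (α s ↔ α t))
    (h : ∀ t, α (rot t) ↔ α t) (s t : Tri k) : α s ↔ α t := by
  have key : ∀ s t : Tri k, s.b ≠ t.a → (α s ↔ α t) := by
    intro s t hst
    obtain ⟨x, h1, h2, h3, h4⟩ := exists4 hk s.a s.b t.a t.b
    have e1 := hα s ⟨s.a, s.b, x, s.ab, h2.symm, h1.symm⟩ ⟨rfl, rfl⟩
    have e2 := h ⟨s.a, s.b, x, s.ab, h2.symm, h1.symm⟩
    have e3 := hα (rot ⟨s.a, s.b, x, s.ab, h2.symm, h1.symm⟩) ⟨s.b, x, t.a, h2.symm, h3, hst⟩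
      ⟨rfl, rfl⟩
    have e4 := h ⟨s.b, x, t.a, h2.symm, h3, hst⟩
    have e5 := hα (rot ⟨s.b, x, t.a, h2.symm, h3, hst⟩) ⟨x, t.a, t.b, h3, t.ab, h4⟩ ⟨rfl, rfl⟩
    have e6 := h ⟨x, t.a, t.b, h3, t.ab, h4⟩
    have e7 := hα (rot ⟨x, t.a, t.b, h3, t.ab, h4⟩) t ⟨rfl, rfl⟩
    rw [e1, ← e2, e3, ← e4, e5, ← e6, e7]
  by_cases hst : s.b = t.a
  · rw [← h s]
    exact key (rot s) t fun h2 => s.bc (hst.trans h2.symm)
  · exact key s t hst

/-- a nonconstant property of arcs differs from every property of triangles at three flags -/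
theorem three (hk : 5 ≤ k) {α β : Tri k → Prop} [DecidablePred fun t => ¬ (α t ↔ β t)] (hα : ∀ s t, Arc s t → (α s ↔ α t))
    (hβ : ∀ t, β (rot t) ↔ β t) (h1 : ∃ t, α t) (h2 : ∃ t, ¬ α t) :
    3 ≤ (Finset.univ.filter fun t => ¬ (α t ↔ β t)).card := by
  obtain ⟨t, ht⟩ : ∃ t, ¬ (α (rot t) ↔ α t) := by
    by_contra hcon
    push Not at hcon
    obtain ⟨u, hu⟩ := h1
    obtain ⟨v, hv⟩ := h2
    exact hv ((const_of_rot hk hα hcon u v).1 hu)
  obtain ⟨a, b, c, hab, hbc, hac⟩ := t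
  -- the arcs `(a, b)` and `(b, c)` differ
  have m0 : ∃ m : Tri k, ¬ (α m ↔ β m) ∧ ∀ e, e ≠ a → e ≠ b → e ≠ c →
      m.a ≠ e ∧ m.b ≠ e ∧ m.c ≠ e := by
    by_contra hcon
    have g1 : α ⟨a, b, c, hab, hbc, hac⟩ ↔ β ⟨a, b, c, hab, hbc, hac⟩ := by
      by_contra hn
      exact hcon ⟨_, hn, fun e e1 e2 e3 => ⟨e1.symm, e2.symm, e3.symm⟩⟩
    have g2 : α (rot ⟨a, b, c, hab, hbc, hac⟩) ↔ β (rot ⟨a, b, c, hab, hbc, hac⟩) := by
      by_contra hn
      exact hcon ⟨_, hn, fun e e1 e2 e3 => ⟨e2.symm, e3.symm, e1.symm⟩⟩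
    exact ht (g2.trans ((hβ _).trans g1.symm))
  have md : ∀ d, d ≠ a → d ≠ b → d ≠ c → ∃ m : Tri k, ¬ (α m ↔ β m) ∧
      (m.a = d ∨ m.b = d ∨ m.c = d) ∧ ∀ e, e ≠ a → e ≠ b → e ≠ c → e ≠ d →
      m.a ≠ e ∧ m.b ≠ e ∧ m.c ≠ e := by
    intro d da db dc
    by_contra hcon
    have g : ∀ m : Tri k, (m.a = d ∨ m.b = d ∨ m.c = d) →
        (∀ e, e ≠ a → e ≠ b → e ≠ c → e ≠ d → m.a ≠ e ∧ m.b ≠ e ∧ m.c ≠ e) →
        (α m ↔ β m) := by
      intro m h3 h4
      by_contra hn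
      exact hcon ⟨m, hn, h3, h4⟩
    -- `(a, b)` to `(d, a)` to `(c, d)` to `(b, c)`
    have r1 := g ⟨a, b, d, hab, db.symm, da.symm⟩ (Or.inr (Or.inr rfl))
      (fun e e1 e2 _ e4 => ⟨e1.symm, e2.symm, e4.symm⟩)
    have r2 := g (rot (rot ⟨a, b, d, hab, db.symm, da.symm⟩)) (Or.inl rfl)
      (fun e e1 e2 _ e4 => ⟨e4.symm, e1.symm, e2.symm⟩)
    have r3 := g ⟨d, a, c, da, hac, dc⟩ (Or.inl rfl)
      (fun e e1 _ e3 e4 => ⟨e4.symm, e1.symm, e3.symm⟩)
    have r4 := g (rot (rot ⟨d, a, c, da, hac, dc⟩)) (Or.inr (Or.inl rfl))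
      (fun e e1 _ e3 e4 => ⟨e3.symm, e4.symm, e1.symm⟩)
    have r5 := g ⟨c, d, b, dc.symm, db, hbc.symm⟩ (Or.inr (Or.inl rfl))
      (fun e _ e2 e3 e4 => ⟨e3.symm, e4.symm, e2.symm⟩)
    have r6 := g (rot (rot ⟨c, d, b, dc.symm, db, hbc.symm⟩)) (Or.inr (Or.inr rfl))
      (fun e _ e2 e3 e4 => ⟨e2.symm, e3.symm, e4.symm⟩)
    have b1 := (hβ (rot ⟨a, b, d, hab, db.symm, da.symm⟩)).trans
      (hβ ⟨a, b, d, hab, db.symm, da.symm⟩)
    have b2 := (hβ (rot ⟨d, a, c, da, hac, dc⟩)).trans (hβ ⟨d, a, c, da, hac, dc⟩)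
    have b3 := (hβ (rot ⟨c, d, b, dc.symm, db, hbc.symm⟩)).trans
      (hβ ⟨c, d, b, dc.symm, db, hbc.symm⟩)
    have a0 := hα ⟨a, b, c, hab, hbc, hac⟩ ⟨a, b, d, hab, db.symm, da.symm⟩ ⟨rfl, rfl⟩
    have a1 := hα (rot (rot ⟨a, b, d, hab, db.symm, da.symm⟩)) ⟨d, a, c, da, hac, dc⟩ ⟨rfl, rfl⟩
    have a2 := hα (rot (rot ⟨d, a, c, da, hac, dc⟩)) ⟨c, d, b, dc.symm, db, hbc.symm⟩ ⟨rfl, rfl⟩
    have a3 := hα (rot (rot ⟨c, d, b, dc.symm, db, hbc.symm⟩))
      (rot ⟨a, b, c, hab, hbc, hac⟩) ⟨rfl, rfl⟩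
    apply ht
    rw [a0, ← a3, r6, b3, ← r5, ← a2, r4, b2, ← r3, ← a1, r2, b1, ← r1]
  obtain ⟨x, hx⟩ := exists_out ({a, b, c} : Finset (Fin k)) (by
    have := Finset.card_le_three (a := a) (b := b) (c := c)
    omega)
  simp only [Finset.mem_insert, Finset.mem_singleton, not_or] at hx
  obtain ⟨y, hy1, hy2, hy3, hy4⟩ := exists4 hk a b c x
  obtain ⟨p, hp1, hp2⟩ := m0
  obtain ⟨q, hq1, hq2, hq3⟩ := md x hx.1 hx.2.1 hx.2.2
  obtain ⟨r, hr1, hr2, hr3⟩ := md y hy1 hy2 hy3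
  have hpx := hp2 x hx.1 hx.2.1 hx.2.2
  have hpy := hp2 y hy1 hy2 hy3
  have hry := hr3 x hx.1 hx.2.1 hx.2.2 hy4.symm
  have hpq : p ≠ q := by
    rintro rfl
    rcases hq2 with h | h | h
    · exact hpx.1 h
    · exact hpx.2.1 h
    · exact hpx.2.2 h
  have hpr : p ≠ r := by
    rintro rfl
    rcases hr2 with h | h | h
    · exact hpy.1 h
    · exact hpy.2.1 h
    · exact hpy.2.2 h
  have hqr : q ≠ r := by
    rintro rfl
    rcases hq2 with h | h | h
    · exact hry.1 h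
    · exact hry.2.1 h
    · exact hry.2.2 h
  rw [← Finset.card_eq_three.2 ⟨p, q, r, hpq, hpr, hqr, rfl⟩]
  apply Finset.card_le_card
  intro z hz
  simp only [Finset.mem_insert, Finset.mem_singleton] at hz
  rw [Finset.mem_filter]
  rcases hz with rfl | rfl | rfl
  · exact ⟨Finset.mem_univ _, hp1⟩
  · exact ⟨Finset.mem_univ _, hq1⟩
  · exact ⟨Finset.mem_univ _, hr1⟩

/-- the counting argument -/
theorem const_one (hk : 5 ≤ k) {F G : Tri k → ℕ} (hF : ∀ s t, Arc s t → F s = F t)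
    (hG : ∀ t, G (rot t) = G t) (hs : ∑ t, F t = Fintype.card (Tri k)) {l₁ l₂ m₁ m₂ : Tri k}
    (h : ∀ t, F t + (if t = m₁ then 1 else 0) + (if t = m₂ then 1 else 0) =
      G t + (if t = l₁ then 1 else 0) + (if t = l₂ then 1 else 0)) :
    (∀ t, F t = 1) ∧ ∀ t, G t = 1 := by
  classical
  have hF1 : ∀ t, 1 ≤ F t := by
    by_contra hcon
    push Not at hcon
    obtain ⟨t₀, ht₀⟩ := hcon
    obtain ⟨t₁, ht₁⟩ : ∃ t, 2 ≤ F t := by
      by_contra hcon
      push Not at hcon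
      have : ∑ t, F t < ∑ _t : Tri k, 1 :=
        Finset.sum_lt_sum (fun t _ => by have := hcon t; omega) ⟨t₀, Finset.mem_univ _, ht₀⟩
      rw [hs, Finset.sum_const, smul_eq_mul, mul_one, Finset.card_univ] at this
      exact lt_irrefl _ this
    have h1 := three hk (α := fun t => 1 ≤ F t) (β := fun t => 1 ≤ G t)
      (fun s t hst => by rw [hF s t hst]) (fun t => by rw [hG]) ⟨t₁, by omega⟩ ⟨t₀, by omega⟩
    have h2 := three hk (α := fun t => 2 ≤ F t) (β := fun t => 2 ≤ G t)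
      (fun s t hst => by rw [hF s t hst]) (fun t => by rw [hG]) ⟨t₁, by omega⟩ ⟨t₀, by omega⟩
    rw [Finset.card_filter] at h1 h2
    have h3 : (∑ t : Tri k, if ¬ (1 ≤ F t ↔ 1 ≤ G t) then 1 else 0) +
        (∑ t : Tri k, if ¬ (2 ≤ F t ↔ 2 ≤ G t) then 1 else 0) ≤
        ∑ t : Tri k, ((if t = m₁ then 1 else 0) + (if t = m₂ then 1 else 0) +
          (if t = l₁ then 1 else 0) + (if t = l₂ then 1 else 0)) := by
      rw [← Finset.sum_add_distrib]
      refine Finset.sum_le_sum fun t _ => ?_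
      have := h t
      split_ifs at this ⊢ <;> omega
    rw [Finset.sum_add_distrib, Finset.sum_add_distrib, Finset.sum_add_distrib] at h3
    simp only [Finset.sum_ite_eq', Finset.mem_univ, if_true] at h3
    omega
  have hF2 : ∀ t, F t = 1 := by
    have h1 : ∑ _t : Tri k, 1 = ∑ t, F t := by
      rw [hs, Finset.sum_const, smul_eq_mul, mul_one, Finset.card_univ]
    intro t
    exact ((Finset.sum_eq_sum_iff_of_le fun t _ => hF1 t).1 h1 t (Finset.mem_univ _)).symm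
  refine ⟨hF2, fun t => ?_⟩
  have h1 := h t
  have h2 := h (rot t)
  have h3 := h (rot (rot t))
  rw [hF2] at h1 h2 h3
  rw [hG] at h2
  rw [hG, hG] at h3
  have n1 := rot_ne t
  have n2 := rot2_ne t
  have n3 := rot2_ne_rot t
  by_contra hne
  rcases Nat.lt_or_gt_of_ne hne with hlt | hgt
  · have g0 : G t = 0 := by omega
    rw [g0] at h1 h2 h3
    have c1 : t = l₁ ∨ t = l₂ := by
      by_contra hc
      push Not at hc
      rw [if_neg hc.1, if_neg hc.2] at h1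
      omega
    have c2 : rot t = l₁ ∨ rot t = l₂ := by
      by_contra hc
      push Not at hc
      rw [if_neg hc.1, if_neg hc.2] at h2
      omega
    have c3 : rot (rot t) = l₁ ∨ rot (rot t) = l₂ := by
      by_contra hc
      push Not at hc
      rw [if_neg hc.1, if_neg hc.2] at h3
      omega
    rcases c1 with c1 | c1 <;> rcases c2 with c2 | c2 <;> rcases c3 with c3 | c3 <;>
      first
        | exact n1 (c2.trans c1.symm)
        | exact n2 (c3.trans c1.symm)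
        | exact n3 (c3.trans c2.symm)
  · have c1 : t = m₁ ∨ t = m₂ := by
      by_contra hc
      push Not at hc
      rw [if_neg hc.1, if_neg hc.2] at h1
      split_ifs at h1 <;> omega
    have c2 : rot t = m₁ ∨ rot t = m₂ := by
      by_contra hc
      push Not at hc
      rw [if_neg hc.1, if_neg hc.2] at h2
      split_ifs at h2 <;> omega
    have c3 : rot (rot t) = m₁ ∨ rot (rot t) = m₂ := by
      by_contra hc
      push Not at hc
      rw [if_neg hc.1, if_neg hc.2] at h3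
      split_ifs at h3 <;> omega
    rcases c1 with c1 | c1 <;> rcases c2 with c2 | c2 <;> rcases c3 with c3 | c3 <;>
      first
        | exact n1 (c2.trans c1.symm)
        | exact n2 (c3.trans c1.symm)
        | exact n3 (c3.trans c2.symm)

end Pool.Agent.Q227.ST
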