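import Pool.Agent.Q227.ST.A1

/-!
# Rigidity of local covers of the geometry of arcs and directed triangles
-/

set_option autoImplicit false

namespace Pool.Agent.Q227.ST

variable {k : ℕ} {f g : Tri k → Tri k}

/-- the flags at an arc go bijectively to the flags at an arc -/
structure PtMap (f : Tri k → Tri k) : Prop where
  arc : ∀ s t, Arc s t → Arc (f s) (f t)
  inj : ∀ s t, Arc s t → f s = f t → s = t

/-- the flags of a triangle go bijectively to the flags of a triangle -/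
def LnMap (g : Tri k → Tri k) : Prop :=
  ∀ t, g (rot t) = rot (g t) ∨ g (rot t) = rot (rot (g t))

theorem PtMap.surj (hf : PtMap f) {t τ : Tri k} (h : Arc (f t) τ) : ∃ s, Arc s t ∧ f s = τ := by
  classical
  let h0 : Fin k → Fin k := fun x =>
    if h1 : x = t.a then (f t).a else if h2 : x = t.b then (f t).b else
      (f ⟨t.a, t.b, x, t.ab, fun e => h2 e.symm, fun e => h1 e.symm⟩).c
  have d1 : h0 t.a = (f t).a := by simp [h0]
  have d2 : h0 t.b = (f t).b := by simp [h0, t.ab.symm]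
  have d3 : ∀ x (h1 : x ≠ t.a) (h2 : x ≠ t.b), h0 x = (f ⟨t.a, t.b, x, t.ab, h2.symm, h1.symm⟩).c :=
    fun x h1 h2 => by simp [h0, h1, h2]
  have hinj : Function.Injective h0 := by
    intro x y hxy
    by_cases hx1 : x = t.a
    · by_cases hy1 : y = t.a
      · rw [hx1, hy1]
      · by_cases hy2 : y = t.b
        · rw [hx1, hy2, d1, d2] at hxy
          exact absurd hxy (f t).ab
        · rw [hx1, d1, d3 y hy1 hy2] at hxy
          have := (hf.arc ⟨t.a, t.b, y, t.ab, Ne.symm hy2, Ne.symm hy1⟩ t ⟨rfl, rfl⟩).1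
          exact absurd (this.trans hxy) (f _).ac
    · by_cases hx2 : x = t.b
      · by_cases hy1 : y = t.a
        · rw [hx2, hy1, d1, d2] at hxy
          exact absurd hxy.symm (f t).ab
        · by_cases hy2 : y = t.b
          · rw [hx2, hy2]
          · rw [hx2, d2, d3 y hy1 hy2] at hxy
            have := (hf.arc ⟨t.a, t.b, y, t.ab, Ne.symm hy2, Ne.symm hy1⟩ t ⟨rfl, rfl⟩).2
            exact absurd (this.trans hxy) (f _).bc
      · by_cases hy1 : y = t.a
        · rw [hy1, d1, d3 x hx1 hx2] at hxy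
          have := (hf.arc ⟨t.a, t.b, x, t.ab, Ne.symm hx2, Ne.symm hx1⟩ t ⟨rfl, rfl⟩).1
          exact absurd (this.trans hxy.symm) (f _).ac
        · by_cases hy2 : y = t.b
          · rw [hy2, d2, d3 x hx1 hx2] at hxy
            have := (hf.arc ⟨t.a, t.b, x, t.ab, Ne.symm hx2, Ne.symm hx1⟩ t ⟨rfl, rfl⟩).2
            exact absurd (this.trans hxy.symm) (f _).bc
          · rw [d3 x hx1 hx2, d3 y hy1 hy2] at hxy
            have h1 : Arc (⟨t.a, t.b, x, t.ab, Ne.symm hx2, Ne.symm hx1⟩ : Tri k)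
                ⟨t.a, t.b, y, t.ab, Ne.symm hy2, Ne.symm hy1⟩ := ⟨rfl, rfl⟩
            have h2 := hf.inj _ _ h1 ((hf.arc _ _ h1).eq hxy)
            exact congrArg Tri.c h2
  obtain ⟨x, hx⟩ := (Finite.injective_iff_surjective.1 hinj) τ.c
  have hx1 : x ≠ t.a := by
    rintro rfl
    rw [d1, h.1] at hx
    exact τ.ac hx
  have hx2 : x ≠ t.b := by
    rintro rfl
    rw [d2, h.2] at hx
    exact τ.bc hx
  rw [d3 x hx1 hx2] at hx
  refine ⟨⟨t.a, t.b, x, t.ab, hx2.symm, hx1.symm⟩, ⟨rfl, rfl⟩, ?_⟩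
  exact ((hf.arc ⟨t.a, t.b, x, t.ab, hx2.symm, hx1.symm⟩ t ⟨rfl, rfl⟩).trans h).eq hx

theorem PtMap.arc_inj (hf : PtMap f) (hi : Function.Injective f) {s t : Tri k}
    (h : Arc (f s) (f t)) : Arc s t := by
  obtain ⟨u, h1, h2⟩ := hf.surj h
  have := hi h2
  subst this
  exact h1.symm

theorem LnMap.both (hg : LnMap g) (t : Tri k) :
    (g (rot t) = rot (g t) ∧ g (rot (rot t)) = rot (rot (g t))) ∨
      (g (rot t) = rot (rot (g t)) ∧ g (rot (rot t)) = rot (g t)) := by
  have h3 := hg (rot (rot t))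
  rw [rot3] at h3
  rcases hg t with h1 | h1
  · left
    refine ⟨h1, ?_⟩
    rcases hg (rot t) with h2 | h2
    · rw [h2, h1]
    · rw [h1, rot3] at h2
      rw [h2] at h3
      rcases h3 with h3 | h3
      · exact absurd h3.symm (rot_ne _)
      · exact absurd h3.symm (rot2_ne _)
  · right
    refine ⟨h1, ?_⟩
    rcases hg (rot t) with h2 | h2
    · rw [h1, rot3] at h2
      rw [h2] at h3
      rcases h3 with h3 | h3
      · exact absurd h3.symm (rot_ne _)
      · exact absurd h3.symm (rot2_ne _)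
    · rw [h2, h1]
      rfl

theorem LnMap.one (hg : LnMap g) (t : Tri k) :
    ∃ s, (s = rot t ∨ s = rot (rot t)) ∧ g s = rot (g t) := by
  rcases hg.both t with h | h
  · exact ⟨rot t, Or.inl rfl, h.1⟩
  · exact ⟨rot (rot t), Or.inr rfl, h.2⟩

theorem LnMap.two (hg : LnMap g) (t : Tri k) :
    ∃ s, (s = rot t ∨ s = rot (rot t)) ∧ g s = rot (rot (g t)) := by
  rcases hg.both t with h | h
  · exact ⟨rot (rot t), Or.inr rfl, h.2⟩
  · exact ⟨rot t, Or.inl rfl, h.1⟩

theorem LnMap.inj (hg : LnMap g) {s t : Tri k} (h : s = rot t ∨ s = rot (rot t)) : g s ≠ g t := by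
  rcases hg.both t with h1 | h1 <;> rcases h with rfl | rfl
  · rw [h1.1]; exact rot_ne _
  · rw [h1.2]; exact rot2_ne _
  · rw [h1.1]; exact rot2_ne _
  · rw [h1.2]; exact rot_ne _

theorem PtMap.card (hf : PtMap f) {σ τ : Tri k} (h : Arc σ τ) :
    (Finset.univ.filter fun t => f t = σ).card = (Finset.univ.filter fun t => f t = τ).card := by
  have key : ∀ σ τ : Tri k, Arc σ τ → (Finset.univ.filter fun t => f t = σ).card ≤
      (Finset.univ.filter fun t => f t = τ).card := by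
    intro σ τ h
    have h1 : ∀ t, ∃ s, f t = σ → (Arc s t ∧ f s = τ) := by
      intro t
      by_cases ht : f t = σ
      · obtain ⟨s, hs⟩ := hf.surj (t := t) (τ := τ) (by rw [ht]; exact h)
        exact ⟨s, fun _ => hs⟩
      · exact ⟨t, fun h => absurd h ht⟩
    choose e he using h1
    refine Finset.card_le_card_of_injOn e (fun t ht => ?_) (fun s hs t ht hst => ?_)
    · rw [Finset.mem_coe, Finset.mem_filter] at ht ⊢
      exact ⟨Finset.mem_univ _, (he t ht.2).2⟩
    · rw [Finset.mem_coe, Finset.mem_filter] at hs ht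
      have h1 := (he s hs.2).1
      have h2 := (he t ht.2).1
      rw [hst] at h1
      exact hf.inj s t (h1.symm.trans h2) (hs.2.trans ht.2.symm)
  exact le_antisymm (key σ τ h) (key τ σ h.symm)

theorem LnMap.card (hg : LnMap g) (τ : Tri k) :
    (Finset.univ.filter fun t => g t = rot τ).card = (Finset.univ.filter fun t => g t = τ).card := by
  have key : ∀ τ : Tri k, (Finset.univ.filter fun t => g t = τ).card ≤
      (Finset.univ.filter fun t => g t = rot τ).card := by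
    intro τ
    have h1 := hg.one
    choose e he1 he2 using h1
    refine Finset.card_le_card_of_injOn e (fun t ht => ?_) (fun s hs t ht hst => ?_)
    · rw [Finset.mem_coe, Finset.mem_filter] at ht ⊢
      exact ⟨Finset.mem_univ _, by rw [he2 t, ht.2]⟩
    · rw [Finset.mem_coe, Finset.mem_filter] at hs ht
      have h3 : g s = g t := hs.2.trans ht.2.symm
      rcases he1 s with h1 | h1 <;> rcases he1 t with h2 | h2
      · rw [hst, h2] at h1
        exact (rot_inj h1).symm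
      · rw [hst, h2] at h1
        exact absurd h3 (hg.inj (Or.inl (rot_inj h1).symm))
      · rw [hst, h2] at h1
        exact absurd h3.symm (hg.inj (Or.inl (rot_inj h1)))
      · rw [hst, h2] at h1
        exact (rot_inj (rot_inj h1)).symm
  refine le_antisymm ?_ (key τ)
  exact (key (rot τ)).trans (key (rot (rot τ)))

/-- if a local cover agrees with a line map outside two flags, both are bijective -/
theorem bij (hk : 5 ≤ k) (hf : PtMap f) (hg : LnMap g) {m₁ m₂ : Tri k} (hm : m₁ ≠ m₂)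
    (hfg : ∀ t, t ≠ m₁ → t ≠ m₂ → f t = g t) : Function.Injective f ∧ Function.Injective g := by
  have hsum : ∀ f : Tri k → Tri k, ∑ τ, (Finset.univ.filter fun t => f t = τ).card =
      Fintype.card (Tri k) := by
    intro f
    rw [← Finset.card_univ]
    exact (Finset.card_eq_sum_card_fiberwise fun t _ => Finset.mem_coe.2 (Finset.mem_univ _)).symm
  have hsplit : ∀ P : Tri k → ℕ, ∑ t, P t = P m₁ + P m₂ +
      ∑ t ∈ (Finset.univ.erase m₁).erase m₂, P t := by
    intro P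
    rw [← Finset.add_sum_erase _ _ (Finset.mem_univ m₁),
      ← Finset.add_sum_erase (Finset.univ.erase m₁) _
        (Finset.mem_erase.2 ⟨hm.symm, Finset.mem_univ m₂⟩), add_assoc]
  obtain ⟨h1, h2⟩ := const_one hk (F := fun τ => (Finset.univ.filter fun t => f t = τ).card)
    (G := fun τ => (Finset.univ.filter fun t => g t = τ).card) (fun s t h => hf.card h)
    (fun t => hg.card t) (hsum f) (l₁ := f m₁) (l₂ := f m₂) (m₁ := g m₁) (m₂ := g m₂) (by
      intro τ
      simp only [Finset.card_filter]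
      rw [hsplit, hsplit (fun t => if g t = τ then 1 else 0)]
      have h3 : ∑ t ∈ (Finset.univ.erase m₁).erase m₂, (if f t = τ then 1 else 0) =
          ∑ t ∈ (Finset.univ.erase m₁).erase m₂, (if g t = τ then 1 else 0) := by
        refine Finset.sum_congr rfl fun t ht => ?_
        rw [Finset.mem_erase, Finset.mem_erase] at ht
        rw [hfg t ht.2.1 ht.1]
      rw [h3]
      simp only [eq_comm (a := τ)]
      ring)
  have hinj : ∀ f : Tri k → Tri k, (∀ τ, (Finset.univ.filter fun t => f t = τ).card = 1) →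
      Function.Injective f := by
    intro f hf s t hst
    exact Finset.card_le_one.1 (hf (f t)).le s (Finset.mem_filter.2 ⟨Finset.mem_univ _, hst⟩) t
      (Finset.mem_filter.2 ⟨Finset.mem_univ _, rfl⟩)
  exact ⟨hinj f h1, hinj g h2⟩

/-- three arcs in three different triangles, pairwise -/
theorem no_triangle {u v w x y z : Tri k} (h1 : v = rot u ∨ v = rot (rot u))
    (h2 : y = rot w ∨ y = rot (rot w)) (h3 : z = rot x ∨ z = rot (rot x)) (hwx : Arc w x)
    (hvy : Arc v y) (huz : Arc u z) : w = x := by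
  by_contra hne
  have hc : w.c ≠ x.c := fun h => hne (hwx.eq h)
  obtain ⟨wa, wb, wc, w1, w2, w3⟩ := w
  obtain ⟨xa, xb, xc, x1, x2, x3⟩ := x
  obtain ⟨ua, ub, uc, u1, u2, u3⟩ := u
  obtain ⟨a1, a2⟩ := hwx
  simp only at a1 a2 hc
  subst a1 a2
  rcases h1 with rfl | rfl <;> rcases h2 with rfl | rfl <;> rcases h3 with rfl | rfl <;>
    simp only [Arc, rot] at hvy huz <;> obtain ⟨b1, b2⟩ := hvy <;> obtain ⟨c1, c2⟩ := huz <;>
    (try simp_all) <;> (try exact w1 b2.symm)

/-- the two cut flags are not exchanged -/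
theorem no_cross (hk : 5 ≤ k) (hf : PtMap f) (hg : LnMap g) (m : Tri k)
    (hfg : ∀ t, t ≠ m → t ≠ rev m → f t = g t) : f = g := by
  have hm : m ≠ rev m := fun h => m.ab (congrArg Tri.a h)
  obtain ⟨hfi, hgi⟩ := bij hk hf hg hm hfg
  have hfs : Function.Surjective f := Finite.injective_iff_surjective.1 hfi
  have key : g m = f m := by
    obtain ⟨s, hs⟩ := hfs (g m)
    by_cases h1 : s = m
    · rw [← hs, h1]
    by_cases h2 : s = rev m
    · exfalso
      rw [h2] at hs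
      obtain ⟨p, q, r, hpq, hqr, hpr⟩ := m
      obtain ⟨x, hx1, hx2, hx3, -⟩ := exists4 hk p q r r
      have e1 : f ⟨q, r, p, hqr, hpr.symm, hpq.symm⟩ = g ⟨q, r, p, hqr, hpr.symm, hpq.symm⟩ :=
        hfg _ (fun h => hpq (congrArg Tri.a h).symm) (fun h => hpr (congrArg Tri.b h).symm)
      have e2 : f ⟨x, q, r, hx2, hqr, hx3⟩ = g ⟨x, q, r, hx2, hqr, hx3⟩ :=
        hfg _ (fun h => hx1 (congrArg Tri.a h)) (fun h => hx2 (congrArg Tri.a h))
      have e3 : f ⟨q, r, x, hqr, hx3.symm, hx2.symm⟩ = g ⟨q, r, x, hqr, hx3.symm, hx2.symm⟩ :=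
        hfg _ (fun h => hpq (congrArg Tri.a h).symm) (fun h => hpr (congrArg Tri.b h).symm)
      have e4 : f ⟨x, q, p, hx2, hpq.symm, hx1⟩ = g ⟨x, q, p, hx2, hpq.symm, hx1⟩ :=
        hfg _ (fun h => hx1 (congrArg Tri.a h)) (fun h => hx2 (congrArg Tri.a h))
      have e5 : f ⟨q, p, x, hpq.symm, hx1.symm, hx2.symm⟩ =
          g ⟨q, p, x, hpq.symm, hx1.symm, hx2.symm⟩ :=
        hfg _ (fun h => hpq (congrArg Tri.a h).symm) (fun h => hx3 (congrArg Tri.c h))
      have l1 := hg ⟨p, q, r, hpq, hqr, hpr⟩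
      have l2 := hg ⟨x, q, r, hx2, hqr, hx3⟩
      have l3 := hg ⟨x, q, p, hx2, hpq.symm, hx1⟩
      have h3 := no_triangle l1 l2 l3 (by
          rw [← e2, ← e4]; exact hf.arc _ _ ⟨rfl, rfl⟩) (by
          change Arc (g ⟨q, r, p, hqr, hpr.symm, hpq.symm⟩) (g ⟨q, r, x, hqr, hx3.symm, hx2.symm⟩)
          rw [← e1, ← e3]; exact hf.arc _ _ ⟨rfl, rfl⟩) (by
          change Arc (g ⟨p, q, r, hpq, hqr, hpr⟩) (g ⟨q, p, x, hpq.symm, hx1.symm, hx2.symm⟩)
          rw [← hs, ← e5]; exact hf.arc _ _ ⟨rfl, rfl⟩)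
      have h4 := hgi h3
      exact hpr (congrArg Tri.c h4).symm
    · rw [hfg s h1 h2] at hs
      exact absurd (hgi hs) h1
  have key2 : g (rev m) = f (rev m) := by
    obtain ⟨s, hs⟩ := hfs (g (rev m))
    by_cases h1 : s = m
    · rw [h1, ← key] at hs
      exact absurd (hgi hs) hm
    by_cases h2 : s = rev m
    · rw [← hs, h2]
    · rw [hfg s h1 h2] at hs
      exact absurd (hgi hs) h2
  funext t
  by_cases h1 : t = m
  · rw [h1, key]
  by_cases h2 : t = rev m
  · rw [h2, key2]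
  exact hfg t h1 h2

/-- arcs which are neither equal nor opposite are near to each other -/
theorem near (hk : 5 ≤ k) (u v : Tri k) (h1 : ¬ Arc u v) (h2 : ¬ (v.a = u.b ∧ v.b = u.a)) :
    (∃ τ, Arc (k := k) u τ ∧ (Arc (rot τ) v ∨ Arc (rot (rot τ)) v)) ∨
    ∃ τ τ', Arc u τ ∧ Arc v τ' ∧ ∃ σ σ' : Tri k, (σ = rot τ ∨ σ = rot (rot τ)) ∧
      (σ' = rot τ' ∨ σ' = rot (rot τ')) ∧ Arc σ σ' := by
  obtain ⟨x, y, z, xy, yz, xz⟩ := u
  obtain ⟨p, q, r, pq, qr, pr⟩ := v
  simp only [Arc] at h1 h2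
  by_cases c1 : y = p
  · have c2 : q ≠ x := fun h => h2 ⟨c1.symm, h⟩
    subst c1
    exact Or.inl ⟨⟨x, y, q, xy, pq, c2.symm⟩, ⟨rfl, rfl⟩, Or.inl ⟨rfl, rfl⟩⟩
  by_cases c2 : x = q
  · subst c2
    exact Or.inl ⟨⟨x, y, p, xy, c1, pq.symm⟩, ⟨rfl, rfl⟩, Or.inr ⟨rfl, rfl⟩⟩
  right
  by_cases c3 : x = p
  · subst c3
    obtain ⟨w, w1, w2, w3, -⟩ := exists4 hk x y q q
    exact ⟨⟨x, y, w, xy, w2.symm, w1.symm⟩, ⟨x, q, w, pq, w3.symm, w1.symm⟩, ⟨rfl, rfl⟩,
      ⟨rfl, rfl⟩, _, _, Or.inr rfl, Or.inr rfl, ⟨rfl, rfl⟩⟩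
  by_cases c4 : y = q
  · subst c4
    obtain ⟨w, w1, w2, w3, -⟩ := exists4 hk x y p p
    exact ⟨⟨x, y, w, xy, w2.symm, w1.symm⟩, ⟨p, y, w, pq, w2.symm, w3.symm⟩, ⟨rfl, rfl⟩,
      ⟨rfl, rfl⟩, _, _, Or.inl rfl, Or.inl rfl, ⟨rfl, rfl⟩⟩
  exact ⟨⟨x, y, p, xy, c1, c3⟩, ⟨p, q, y, pq, fun h => c4 h.symm, fun h => c1 h.symm⟩, ⟨rfl, rfl⟩,
    ⟨rfl, rfl⟩, _, _, Or.inl rfl, Or.inr rfl, ⟨rfl, rfl⟩⟩

/-- bijective covers respect the reversal of arcs -/
theorem rev_arc (hk : 5 ≤ k) (hf : PtMap f) (hl : LnMap f) (hi : Function.Injective f)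
    (t : Tri k) : (f (rev t)).a = (f t).b ∧ (f (rev t)).b = (f t).a := by
  by_contra hcon
  have h0 : ¬ Arc (f t) (f (rev t)) := fun h => by
    have := hf.arc_inj hi h
    exact t.ab this.1
  rcases near hk (f t) (f (rev t)) h0 hcon with ⟨τ, h1, h2⟩ | ⟨τ, τ', h1, h2, σ, σ', h3, h4, h5⟩
  · obtain ⟨s, h3, rfl⟩ := hf.surj h1
    obtain ⟨s', h4, h5⟩ : ∃ s', (s' = rot s ∨ s' = rot (rot s)) ∧ Arc (f s') (f (rev t)) := by
      rcases h2 with h2 | h2
      · obtain ⟨s', h4, h5⟩ := hl.one s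
        exact ⟨s', h4, by rw [h5]; exact h2⟩
      · obtain ⟨s', h4, h5⟩ := hl.two s
        exact ⟨s', h4, by rw [h5]; exact h2⟩
    have h6 := hf.arc_inj hi h5
    rcases h4 with rfl | rfl
    · exact s.ac (h3.1.trans h6.2.symm)
    · exact s.bc (h3.2.trans h6.1.symm)
  · obtain ⟨s, g1, rfl⟩ := hf.surj h1
    obtain ⟨s', g2, rfl⟩ := hf.surj h2
    obtain ⟨p, h6, rfl⟩ : ∃ p, (p = rot s ∨ p = rot (rot s)) ∧ f p = σ := by
      rcases h3 with rfl | rfl
      · exact hl.one s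
      · exact hl.two s
    obtain ⟨p', h7, rfl⟩ : ∃ p, (p = rot s' ∨ p = rot (rot s')) ∧ f p = σ' := by
      rcases h4 with rfl | rfl
      · exact hl.one s'
      · exact hl.two s'
    have h8 := hf.arc_inj hi h5
    have j1 : s'.a = t.b := g2.1
    have j2 : s'.b = t.a := g2.2
    rcases h6 with rfl | rfl <;> rcases h7 with rfl | rfl
    · exact t.ab ((j2.symm.trans h8.1.symm).trans g1.2)
    · exact s.bc ((g1.2.trans j1.symm).trans h8.2.symm)
    · exact s.ac ((g1.1.trans j2.symm).trans h8.1.symm)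
    · exact t.ab ((g1.1.symm.trans h8.2).trans j1)

theorem rev_eq (hk : 5 ≤ k) (hf : PtMap f) (hl : LnMap f) (hi : Function.Injective f)
    (t : Tri k) : f (rev t) = rev (f t) := by
  obtain ⟨h1, h2⟩ := rev_arc hk hf hl hi t
  obtain ⟨h3, h4⟩ := rev_arc hk hf hl hi (rot (rot t))
  have h5 := hl (rev t)
  have h6 : f (rot (rot t)) = rot (f t) ∨ f (rot (rot t)) = rot (rot (f t)) := by
    rcases hl.both t with h | h
    · exact Or.inr h.2
    · exact Or.inl h.2
  have e : rot (rev t) = rev (rot (rot t)) := rfl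
  rw [e] at h5
  apply Tri.ext h1 h2
  change (f (rev t)).c = (f t).c
  rcases h5 with h5 | h5 <;> rcases h6 with h6 | h6 <;> rw [h5, h6] at h3 h4 <;>
    simp only [rot] at h3 h4
  · exact absurd (h2.symm.trans h3).symm (f t).ac.symm
  · exact h4
  · exact h3
  · exact absurd (h4.symm.trans h1).symm (f t).bc

end Pool.Agent.Q227.ST
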