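import Mathlib

/-!
# Star colourings of `2 p`-regular graphs with `p + 2` colours
-/

set_option autoImplicit false

namespace Pool.Agent.Q227.ST

/-- a star colouring: proper, and no path on four vertices is bicoloured -/
def IsStarColouring {V : Type} (G : SimpleGraph V) {k : ℕ} (f : V → Fin k) : Prop :=
  (∀ u v, G.Adj u v → f u ≠ f v) ∧
    ∀ v₁ v₂ v₃ v₄, G.Adj v₁ v₂ → G.Adj v₂ v₃ → G.Adj v₃ v₄ → v₁ ≠ v₃ → v₁ ≠ v₄ → v₂ ≠ v₄ →
      ¬ (f v₁ = f v₃ ∧ f v₂ = f v₄)

/-- the graph has a star colouring with `k` colours -/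
def StarColourable {V : Type} (G : SimpleGraph V) (k : ℕ) : Prop :=
  ∃ f : V → Fin k, IsStarColouring G f

theorem StarColourable.iso {V W : Type} {G : SimpleGraph V} {H : SimpleGraph W} (e : G ≃g H) {k : ℕ}
    (h : StarColourable H k) : StarColourable G k := by
  obtain ⟨f, h1, h2⟩ := h
  refine ⟨fun v => f (e v), fun u v huv => h1 _ _ (e.map_rel_iff.2 huv), ?_⟩
  intro v₁ v₂ v₃ v₄ h12 h23 h34 n13 n14 n24
  exact h2 _ _ _ _ (e.map_rel_iff.2 h12) (e.map_rel_iff.2 h23) (e.map_rel_iff.2 h34)
    (fun h => n13 (e.injective h)) (fun h => n14 (e.injective h)) (fun h => n24 (e.injective h))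

/-- the structure of such a colouring: every vertex `v` has a colour `c v` such that the neighbours
of any other colour are unique; of two adjacent vertices exactly one has the special colour of the
other -/
theorem structure_thm {V : Type} [Fintype V] [DecidableEq V] (G : SimpleGraph V)
    [DecidableRel G.Adj] {p : ℕ} (hp : 2 ≤ p) (hG : G.IsRegularOfDegree (2 * p))
    (f : V → Fin (p + 2)) (hf : IsStarColouring G f) :
    ∃ c : V → Fin (p + 2), (∀ v, c v ≠ f v) ∧
      (∀ u v, G.Adj u v → (f u = c v ∧ f v ≠ c u) ∨ (f u ≠ c v ∧ f v = c u)) ∧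
      ∀ v u w, G.Adj v u → G.Adj v w → f u = f w → f u ≠ c v → u = w := by
  classical
  obtain ⟨hprop, hstar⟩ := hf
  -- `P v u`: `u` is the only neighbour of `v` with its colour
  let P : V → V → Prop := fun v u => ∀ w, G.Adj v w → f w = f u → w = u
  have h1 : ∀ u v, G.Adj u v → P v u ∨ P u v := by
    intro u v huv
    by_contra hcon
    simp only [P, not_or, not_forall] at hcon
    obtain ⟨⟨w, hw1, hw2, hw3⟩, ⟨x, hx1, hx2, hx3⟩⟩ := hcon
    -- the path `w v u x`
    refine hstar w v u x hw1.symm huv.symm hx1 hw3 ?_ (Ne.symm hx3) ⟨hw2, hx2.symm⟩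
    rintro rfl
    exact hprop _ _ huv (hw2.symm.trans hx2)
  let S : V → Finset V := fun v => Finset.univ.filter fun u => G.Adj v u ∧ P v u
  have hS : ∀ v u, u ∈ S v ↔ G.Adj v u ∧ P v u := fun v u => by simp [S]
  have hSinj : ∀ v, Set.InjOn f (S v : Set V) := by
    intro v u hu w hw huw
    rw [Finset.mem_coe, hS] at hu hw
    exact (hw.2 u hu.1 huw)
  have hSim : ∀ v, (S v).image f ⊆ Finset.univ.erase (f v) := by
    intro v j hj
    obtain ⟨u, hu, rfl⟩ := Finset.mem_image.1 hj
    exact Finset.mem_erase.2 ⟨(hprop v u ((hS v u).1 hu).1).symm, Finset.mem_univ _⟩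
  have hcE : ∀ v, (Finset.univ.erase (f v)).card = p + 1 := by
    intro v
    rw [Finset.card_erase_of_mem (Finset.mem_univ _), Finset.card_univ, Fintype.card_fin]
    rfl
  have hle : ∀ v, (S v).card ≤ p := by
    intro v
    by_contra hcon
    push Not at hcon
    have h2 : (S v).image f = Finset.univ.erase (f v) := by
      apply Finset.eq_of_subset_of_card_le (hSim v)
      rw [hcE, Finset.card_image_of_injOn (hSinj v)]
      exact hcon
    have h3 : (S v).card = p + 1 := by
      rw [← Finset.card_image_of_injOn (hSinj v), h2, hcE]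
    have h4 : S v = G.neighborFinset v := by
      ext u
      rw [hS, SimpleGraph.mem_neighborFinset]
      refine ⟨fun h => h.1, fun h => ⟨h, ?_⟩⟩
      have h5 : f u ∈ (S v).image f := by
        rw [h2]
        exact Finset.mem_erase.2 ⟨(hprop v u h).symm, Finset.mem_univ _⟩
      obtain ⟨w, hw, hwu⟩ := Finset.mem_image.1 h5
      have h6 := ((hS v w).1 hw).2
      intro x hx hxu
      rw [h6 x hx (hxu.trans hwu.symm), h6 u h hwu.symm]
    have h5 := hG v
    rw [← SimpleGraph.card_neighborFinset_eq_degree, ← h4, h3] at h5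
    omega
  have hcard : ∀ v, (S v).card = ∑ u, (if G.Adj v u ∧ P v u then 1 else 0) := fun v => by
    rw [Finset.card_filter]
  have hdeg : ∀ v, ∑ u, (if G.Adj v u then 1 else 0) = 2 * p := by
    intro v
    rw [← Finset.card_filter, ← hG v, ← SimpleGraph.card_neighborFinset_eq_degree]
    congr 1
    ext u
    simp
  have hsym : ∑ v, ∑ u, (if G.Adj v u ∧ P u v then 1 else 0) =
      ∑ v, ∑ u, (if G.Adj v u ∧ P v u then 1 else 0) := by
    rw [Finset.sum_comm]
    refine Finset.sum_congr rfl fun v _ => Finset.sum_congr rfl fun u _ => ?_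
    simp only [G.adj_comm u v]
  have hpt : ∀ v u, (if G.Adj v u then 1 else 0) ≤
      (if G.Adj v u ∧ P v u then 1 else 0) + (if G.Adj v u ∧ P u v then 1 else 0) := by
    intro v u
    by_cases h : G.Adj v u
    · rcases h1 v u h with h2 | h2
      · rw [if_pos h, if_pos (⟨h, h2⟩ : G.Adj v u ∧ P u v)]
        omega
      · rw [if_pos h, if_pos (⟨h, h2⟩ : G.Adj v u ∧ P v u)]
        omega
    · rw [if_neg h]
      omega
  have hlow : ∑ v : V, 2 * p ≤ ∑ v, ∑ u, ((if G.Adj v u ∧ P v u then 1 else 0) +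
      (if G.Adj v u ∧ P u v then 1 else 0)) := by
    rw [← Finset.sum_congr rfl fun v _ => hdeg v]
    exact Finset.sum_le_sum fun v _ => Finset.sum_le_sum fun u _ => hpt v u
  have hup : ∑ v, ∑ u, ((if G.Adj v u ∧ P v u then 1 else 0) +
      (if G.Adj v u ∧ P u v then 1 else 0)) = 2 * ∑ v, (S v).card := by
    rw [Finset.sum_congr rfl fun v _ => Finset.sum_add_distrib, Finset.sum_add_distrib, hsym,
      Finset.sum_congr rfl fun v _ => hcard v]
    ring
  have hle2 : ∑ v, (S v).card ≤ ∑ _v : V, p := Finset.sum_le_sum fun v _ => hle v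
  have h2p : ∑ v : V, 2 * p = 2 * ∑ _v : V, p := by rw [Finset.mul_sum]
  have heq : ∑ v, (S v).card = ∑ _v : V, p := by omega
  have hSp : ∀ v, (S v).card = p := fun v =>
    (Finset.sum_eq_sum_iff_of_le fun v _ => hle v).1 heq v (Finset.mem_univ _)
  have hex : ∀ v u, G.Adj v u → ¬ (P v u ∧ P u v) := by
    intro v u huv hcon
    have h2 : ∑ v : V, 2 * p < ∑ v, ∑ u, ((if G.Adj v u ∧ P v u then 1 else 0) +
        (if G.Adj v u ∧ P u v then 1 else 0)) := by
      rw [← Finset.sum_congr rfl fun v _ => hdeg v]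
      refine Finset.sum_lt_sum (fun v _ => Finset.sum_le_sum fun u _ => hpt v u)
        ⟨v, Finset.mem_univ _, ?_⟩
      refine Finset.sum_lt_sum (fun u _ => hpt v u) ⟨u, Finset.mem_univ _, ?_⟩
      rw [if_pos huv, if_pos ⟨huv, hcon.1⟩, if_pos ⟨huv, hcon.2⟩]
      omega
    omega
  have hc : ∀ v, ∃ j, j ∈ Finset.univ.erase (f v) ∧ j ∉ (S v).image f := by
    intro v
    by_contra hcon
    push Not at hcon
    have := Finset.card_le_card (show Finset.univ.erase (f v) ⊆ (S v).image f from
      fun j hj => hcon j hj)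
    rw [hcE, Finset.card_image_of_injOn (hSinj v), hSp] at this
    omega
  choose c hc1 hc2 using hc
  have himg : ∀ v, (S v).image f = (Finset.univ.erase (f v)).erase (c v) := by
    intro v
    apply Finset.eq_of_subset_of_card_le
    · intro j hj
      exact Finset.mem_erase.2 ⟨fun h => hc2 v (h ▸ hj), hSim v hj⟩
    · rw [Finset.card_erase_of_mem (hc1 v), hcE, Finset.card_image_of_injOn (hSinj v), hSp]
      omega
  have hP : ∀ v u, G.Adj v u → (P v u ↔ f u ≠ c v) := by
    intro v u huv
    constructor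
    · intro h h2
      exact hc2 v (Finset.mem_image.2 ⟨u, (hS v u).2 ⟨huv, h⟩, h2⟩)
    · intro h
      have h2 : f u ∈ (S v).image f := by
        rw [himg]
        exact Finset.mem_erase.2 ⟨h, Finset.mem_erase.2 ⟨(hprop v u huv).symm, Finset.mem_univ _⟩⟩
      obtain ⟨w, hw, hwu⟩ := Finset.mem_image.1 h2
      have h3 := ((hS v w).1 hw).2
      intro x hx hxu
      rw [h3 x hx (hxu.trans hwu.symm), h3 u huv hwu.symm]
  refine ⟨c, fun v => (Finset.mem_erase.1 (hc1 v)).1, fun u v huv => ?_, fun v u w hu hw huw hne => ?_⟩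
  · have g1 := hP v u huv.symm
    have g2 := hP u v huv
    have g3 := h1 u v huv
    have g4 := hex u v huv
    by_cases e1 : f u = c v
    · left
      refine ⟨e1, ?_⟩
      rcases g3 with g3 | g3
      · exact absurd e1 (g1.1 g3)
      · exact g2.1 g3
    · right
      refine ⟨e1, ?_⟩
      by_contra e2
      exact g4 ⟨g2.2 e2, g1.2 e1⟩
  · exact ((hP v u hu).2 hne w hw huw.symm).symm

end Pool.Agent.Q227.ST
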