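import Pool.Agent.Q227.ST.A1

/-!
# Networks of copies of the geometry of arcs and directed triangles, and their graphs
-/

set_option autoImplicit false

namespace Pool.Agent.Q227.ST

variable {k : ℕ} {N : Type}

/-- a network: copies of the geometry (nodes) with some flags cut and exchanged in pairs -/
structure Net (k : ℕ) (N : Type) where
  /-- the flag with which a flag is exchanged -/
  σ : N × Tri k → N × Tri k
  inv : ∀ x, σ (σ x) = x
  ne : ∀ x, σ x ≠ x → (σ x).1 ≠ x.1
  one : ∀ x y, x.1 = y.1 → (σ x).1 = (σ y).1 → σ x ≠ x → x = y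
  port : ∀ x y, x.1 = y.1 → σ x ≠ x → σ y ≠ y → ¬ (y.2 = rot x.2 ∨ y.2 = rot (rot x.2))
  /-- the nodes which serve as links -/
  link : N → Prop
  bip : ∀ x, σ x ≠ x → link x.1 ∨ link (σ x).1
  lport : ∀ g, link g → ∃ m, ∀ t, t ≠ m → t ≠ rev m → σ (g, t) = (g, t)

/-- the arcs -/
abbrev ArcT (k : ℕ) : Type := {e : Fin k × Fin k // e.1 ≠ e.2}

/-- the point of a flag -/
def pt (x : N × Tri k) : N × ArcT k := (x.1, ⟨(x.2.a, x.2.b), x.2.ab⟩)

/-- rotation of the triangle -/
def rotN (x : N × Tri k) : N × Tri k := (x.1, rot x.2)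

theorem pt_eq {x y : N × Tri k} : pt x = pt y ↔ x.1 = y.1 ∧ Arc x.2 y.2 := by
  simp only [pt, Prod.mk.injEq, Subtype.mk.injEq, Arc]

namespace Net

variable (M : Net k N)

/-- the next flag of the line of a flag -/
def r (x : N × Tri k) : N × Tri k := M.σ (rotN (M.σ x))

theorem r2 (x : N × Tri k) : M.r (M.r x) = M.σ (rotN (rotN (M.σ x))) := by
  unfold r
  rw [M.inv]

theorem r3 (x : N × Tri k) : M.r (M.r (M.r x)) = x := by
  rw [r2]
  unfold r
  rw [M.inv]
  exact M.inv x

theorem not_fix {x : N × Tri k} (h : M.σ x ≠ x) : M.σ (M.σ x) ≠ M.σ x := by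
  rw [M.inv]
  exact h.symm

theorem pt_r_ne (x : N × Tri k) : pt (M.r x) ≠ pt x := by
  intro h
  have hx : M.σ (M.σ x) = x := M.inv x
  have hr : M.r x = M.σ (rotN (M.σ x)) := rfl
  rw [hr] at h
  generalize M.σ x = y at hx h
  rw [pt_eq] at h
  by_cases h1 : M.σ y = y
  · rw [h1] at hx
    rw [← hx] at h
    by_cases h2 : M.σ (rotN y) = rotN y
    · rw [h2] at h
      exact y.2.ab h.2.1.symm
    · exact M.ne _ h2 h.1
  · by_cases h2 : M.σ (rotN y) = rotN y
    · rw [h2] at h
      have h3 := M.ne _ h1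
      rw [hx] at h3
      exact h3 h.1.symm
    · exact M.port y (rotN y) rfl h1 h2 (Or.inl rfl)

theorem pt_r2_ne (x : N × Tri k) : pt (M.r (M.r x)) ≠ pt x := by
  intro h
  have := M.pt_r_ne (M.r (M.r x))
  rw [M.r3] at this
  exact this h.symm

/-- two different flags of a line slot -/
def OnLine (X X' : N × Tri k) : Prop := X'.1 = X.1 ∧ (X'.2 = rot X.2 ∨ X'.2 = rot (rot X.2))

theorem OnLine.symm {X X' : N × Tri k} (h : OnLine X X') : OnLine X' X := by
  obtain ⟨h1, h2 | h2⟩ := h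
  · exact ⟨h1.symm, Or.inr (by rw [h2]; rfl)⟩
  · exact ⟨h1.symm, Or.inl (by rw [h2]; rfl)⟩

theorem OnLine.not_arc {X X' : N × Tri k} (h : OnLine X X') : ¬ Arc X.2 X'.2 := by
  obtain ⟨h1, h2 | h2⟩ := h
  · rintro ⟨h3, h4⟩
    rw [h2] at h3
    exact X.2.ab h3
  · rintro ⟨h3, h4⟩
    rw [h2] at h3
    exact X.2.ac h3

theorem OnLine.eq {X Y Z : N × Tri k} (h : OnLine X Y) (h' : OnLine X Z) (ha : Arc Y.2 Z.2) :
    Y = Z := by
  obtain ⟨h1, h2⟩ := h
  obtain ⟨h3, h4⟩ := h'
  refine Prod.ext (h1.trans h3.symm) ?_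
  rcases h2 with h2 | h2 <;> rcases h4 with h4 | h4
  · rw [h2, h4]
  · rw [h2, h4] at ha
    exact absurd ha.1 X.2.bc
  · rw [h2, h4] at ha
    exact absurd ha.1.symm X.2.bc
  · rw [h2, h4]

theorem lin {X X' Y Y' : N × Tri k} (hX : OnLine X X') (hY : OnLine Y Y')
    (h : pt (M.σ X) = pt (M.σ Y)) (h' : pt (M.σ X') = pt (M.σ Y')) : X = Y ∧ X' = Y' := by
  rw [pt_eq] at h h'
  have key : X = Y → X = Y ∧ X' = Y' := by
    rintro rfl
    refine ⟨rfl, ?_⟩
    by_cases h1 : M.σ X' = X'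
    · by_cases h2 : M.σ Y' = Y'
      · rw [h1, h2] at h'
        exact hX.eq hY h'.2
      · rw [h1] at h'
        exact absurd (h'.1.symm.trans (hX.1.trans hY.1.symm)) (M.ne _ h2)
    · by_cases h2 : M.σ Y' = Y'
      · rw [h2] at h'
        exact absurd (h'.1.trans (hY.1.trans hX.1.symm)) (M.ne _ h1)
      · exact M.one _ _ (hX.1.trans hY.1.symm) h'.1 h1
  apply key
  by_cases a1 : M.σ X = X
  · by_cases a2 : M.σ X' = X'
    · by_cases a3 : M.σ Y = Y
      · by_cases a4 : M.σ Y' = Y'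
        · rw [a1, a3] at h
          rw [a2, a4] at h'
          obtain ⟨g, a, b, c, p, q, s⟩ := X
          obtain ⟨g', a', b', c', p', q', s'⟩ := Y
          obtain ⟨i1, i2⟩ := h.2
          have i0 := h.1
          simp only at i0 i1 i2
          subst i0 i1 i2
          have hc : c = c' := by
            obtain ⟨-, hX⟩ := hX
            obtain ⟨-, hY⟩ := hY
            obtain ⟨-, j1, j2⟩ := h'
            rcases hX with hX | hX <;> rcases hY with hY | hY <;> rw [hX, hY] at j1 j2 <;>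
              simp only [rot] at j1 j2
            · exact j2
            · exact absurd j2.symm s
            · exact absurd j2 s'
            · exact j1
          subst hc
          rfl
        · rw [a1, a3] at h
          rw [a2] at h'
          exact absurd (h'.1.symm.trans (hX.1.trans (h.1.trans hY.1.symm))) (M.ne _ a4)
      · by_cases a4 : M.σ Y' = Y'
        · rw [a1] at h
          rw [a2, a4] at h'
          exact absurd (h.1.symm.trans (hX.1.symm.trans (h'.1.trans hY.1))) (M.ne _ a3)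
        · exact absurd hY.2 (M.port _ _ hY.1.symm a3 a4)
    · by_cases a3 : M.σ Y = Y
      · by_cases a4 : M.σ Y' = Y'
        · rw [a1, a3] at h
          rw [a4] at h'
          exact absurd (h'.1.trans (hY.1.trans (h.1.symm.trans hX.1.symm))) (M.ne _ a2)
        · rw [a1, a3] at h
          have h2 := M.one X' Y' (hX.1.trans (h.1.trans hY.1.symm)) h'.1 a2
          subst h2
          exact hX.symm.eq hY.symm h.2
      · by_cases a4 : M.σ Y' = Y'
        · rw [a1] at h
          rw [a4] at h'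
          have h2 := M.one X' (M.σ Y) (hX.1.trans h.1) (by rw [M.inv]; exact h'.1.trans hY.1) a2
          rw [← h2] at h
          exact absurd h.2 hX.not_arc
        · exact absurd hY.2 (M.port _ _ hY.1.symm a3 a4)
  · by_cases a2 : M.σ X' = X'
    · by_cases a3 : M.σ Y = Y
      · by_cases a4 : M.σ Y' = Y'
        · rw [a3] at h
          rw [a2, a4] at h'
          exact absurd (h.1.trans (hY.1.symm.trans (h'.1.symm.trans hX.1))) (M.ne _ a1)
        · rw [a3] at h
          rw [a2] at h'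
          have h2 := M.one Y' (M.σ X) (hY.1.trans h.1.symm)
            (by rw [M.inv]; exact h'.1.symm.trans hX.1) a4
          rw [← h2] at h
          exact absurd h.2.symm hY.not_arc
      · by_cases a4 : M.σ Y' = Y'
        · rw [a2, a4] at h'
          exact M.one _ _ (hX.1.symm.trans (h'.1.trans hY.1)) h.1 a1
        · exact absurd hY.2 (M.port _ _ hY.1.symm a3 a4)
    · exact absurd hX.2 (M.port _ _ hX.1.symm a1 a2)

theorem onLine1 (X : N × Tri k) : OnLine X (rotN X) := ⟨rfl, Or.inl rfl⟩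

theorem onLine2 (X : N × Tri k) : OnLine X (rotN (rotN X)) := ⟨rfl, Or.inr rfl⟩

theorem lin1 {x y : N × Tri k} (h : pt x = pt y) (h' : pt (M.r x) = pt (M.r y)) : x = y := by
  have := (M.lin (onLine1 (M.σ x)) (onLine1 (M.σ y)) (by rw [M.inv, M.inv]; exact h) h').1
  rw [← M.inv x, this, M.inv]

theorem lin2 {x y : N × Tri k} (h : pt x = pt y) (h' : pt (M.r (M.r x)) = pt (M.r (M.r y))) :
    x = y := by
  rw [M.r2, M.r2] at h'
  have := (M.lin (onLine2 (M.σ x)) (onLine2 (M.σ y)) (by rw [M.inv, M.inv]; exact h) h').1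
  rw [← M.inv x, this, M.inv]

theorem lin12 {x y : N × Tri k} (h : pt x = pt y) : pt (M.r x) ≠ pt (M.r (M.r y)) := by
  intro h'
  rw [M.r2] at h'
  have := M.lin (onLine1 (M.σ x)) (onLine2 (M.σ y)) (by rw [M.inv, M.inv]; exact h) h'
  rw [this.1] at this
  have h2 := congrArg Prod.snd this.2
  exact rot2_ne_rot _ h2.symm

/-- the graph of the network: the points, two of them being adjacent if they are on a line -/
def graph : SimpleGraph (N × ArcT k) where
  Adj P Q := ∃ x, pt x = P ∧ (pt (M.r x) = Q ∨ pt (M.r (M.r x)) = Q)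
  symm := by
    refine ⟨?_⟩
    rintro P Q ⟨x, rfl, rfl | rfl⟩
    · exact ⟨M.r x, rfl, Or.inr (by rw [M.r3])⟩
    · exact ⟨M.r (M.r x), rfl, Or.inl (by rw [M.r3])⟩
  loopless := ⟨by
    rintro P ⟨x, rfl, h | h⟩
    · exact M.pt_r_ne x h
    · exact M.pt_r2_ne x h⟩

theorem adj1 (x : N × Tri k) : M.graph.Adj (pt x) (pt (M.r x)) := ⟨x, rfl, Or.inl rfl⟩

theorem adj2 (x : N × Tri k) : M.graph.Adj (pt x) (pt (M.r (M.r x))) := ⟨x, rfl, Or.inr rfl⟩

/-- the flags at a point -/
def flagEquiv (P : N × ArcT k) :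
    {x : N × Tri k // pt x = P} ≃ {c : Fin k // c ≠ P.2.1.1 ∧ c ≠ P.2.1.2} where
  toFun x := ⟨x.1.2.c, by
    rcases x with ⟨x, rfl⟩
    exact ⟨x.2.ac.symm, x.2.bc.symm⟩⟩
  invFun c := ⟨(P.1, ⟨P.2.1.1, P.2.1.2, c.1, P.2.2, c.2.2.symm, c.2.1.symm⟩), rfl⟩
  left_inv := by
    rintro ⟨x, rfl⟩
    rfl
  right_inv := fun c => rfl

theorem card_flags [Finite N] (P : N × ArcT k) : Nat.card {x : N × Tri k // pt x = P} = k - 2 := by
  classical
  rw [Nat.card_congr (flagEquiv P), Nat.card_eq_fintype_card, Fintype.card_subtype]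
  have h1 : (Finset.univ.filter fun c : Fin k => c ≠ P.2.1.1 ∧ c ≠ P.2.1.2) =
      (Finset.univ.erase P.2.1.1).erase P.2.1.2 := by
    ext c
    simp [and_comm]
  rw [h1, Finset.card_erase_of_mem, Finset.card_erase_of_mem (Finset.mem_univ _),
    Finset.card_univ, Fintype.card_fin]
  · omega
  · exact Finset.mem_erase.2 ⟨P.2.2.symm, Finset.mem_univ _⟩

/-- the neighbours of a point -/
noncomputable def nbEquiv (P : N × ArcT k) :
    {x : N × Tri k // pt x = P} × Bool ≃ M.graph.neighborSet P :=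
  Equiv.ofBijective (fun y => ⟨if y.2 then pt (M.r y.1.1) else pt (M.r (M.r y.1.1)), by
    obtain ⟨⟨x, hx⟩, b⟩ := y
    cases b
    · exact ⟨x, hx, Or.inr rfl⟩
    · exact ⟨x, hx, Or.inl rfl⟩⟩) (by
    constructor
    · rintro ⟨⟨x, hx⟩, b⟩ ⟨⟨y, hy⟩, b'⟩ h
      have h2 := congrArg Subtype.val h
      cases b <;> cases b' <;> simp only [if_true, if_false, Bool.false_eq_true] at h2
      · have := M.lin2 (hx.trans hy.symm) h2
        subst this
        rfl
      · exact absurd h2.symm (M.lin12 (hy.trans hx.symm))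
      · exact absurd h2 (M.lin12 (hx.trans hy.symm))
      · have := M.lin1 (hx.trans hy.symm) h2
        subst this
        rfl
    · rintro ⟨Q, x, hx, h | h⟩
      · exact ⟨⟨⟨x, hx⟩, true⟩, Subtype.ext h⟩
      · exact ⟨⟨⟨x, hx⟩, false⟩, Subtype.ext h⟩)

theorem ncard_nb [Finite N] (P : N × ArcT k) : (M.graph.neighborSet P).ncard = 2 * (k - 2) := by
  rw [← Nat.card_coe_set_eq, ← Nat.card_congr (M.nbEquiv P), Nat.card_prod, card_flags,
    Nat.card_eq_fintype_card, Fintype.card_bool, mul_comm]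

/-- the neighbours of a point are covered by `k - 2` cliques -/
theorem indep_le [Finite N] (P : N × ArcT k) (S : Finset (N × ArcT k))
    (h1 : ∀ Q ∈ S, M.graph.Adj P Q) (h2 : ∀ Q ∈ S, ∀ R ∈ S, ¬ M.graph.Adj Q R) :
    S.card ≤ k - 2 := by
  classical
  have hex : ∀ Q : S, ∃ x : {x : N × Tri k // pt x = P}, pt (M.r x.1) = Q.1 ∨
      pt (M.r (M.r x.1)) = Q.1 := by
    rintro ⟨Q, hQ⟩
    obtain ⟨x, hx, h⟩ := h1 Q hQ
    exact ⟨⟨x, hx⟩, h⟩
  choose e he using hex
  have hinj : Function.Injective e := by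
    intro Q R hQR
    have hQ := he Q
    have hR := he R
    rw [← hQR] at hR
    apply Subtype.ext
    rcases hQ with hQ | hQ <;> rcases hR with hR | hR
    · exact hQ.symm.trans hR
    · exact absurd (show M.graph.Adj Q.1 R.1 by
        rw [← hQ, ← hR]; exact M.adj1 _) (h2 _ Q.2 _ R.2)
    · exact absurd (show M.graph.Adj R.1 Q.1 by
        rw [← hQ, ← hR]; exact M.adj1 _) (h2 _ R.2 _ Q.2)
    · exact hQ.symm.trans hR
  have := Nat.card_le_card_of_injective e hinj
  rw [card_flags] at this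
  rwa [Nat.card_eq_fintype_card, Fintype.card_coe] at this

end Net

end Pool.Agent.Q227.ST
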