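import Pool.Agent.Q227.ST.A2
import Pool.Agent.Q227.ST.A3
import Pool.Agent.Q227.ST.A4

/-!
# Star colourings of the graph of a network are rigid at each node
-/

set_option autoImplicit false

namespace Pool.Agent.Q227.ST

variable {N : Type}

namespace Net

theorem sound [Finite N] {p : ℕ} (hp : 3 ≤ p) (M : Net (p + 2) N)
    (h : StarColourable M.graph (p + 2)) :
    ∃ lam : N × Tri (p + 2) → Tri (p + 2), (∀ x, lam (M.σ x) = lam x) ∧
      ∀ g, PtMap (fun t => lam (g, t)) ∧ LnMap (fun t => lam (g, t)) ∧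
        Function.Injective (fun t => lam (g, t)) ∧ ∀ t, lam (g, rev t) = rev (lam (g, t)) := by
  classical
  obtain ⟨f, hf⟩ := h
  haveI : Fintype N := Fintype.ofFinite N
  have hreg : M.graph.IsRegularOfDegree (2 * p) := by
    intro P
    have h1 := M.ncard_nb P
    rw [← Nat.card_coe_set_eq, Nat.card_eq_fintype_card,
      SimpleGraph.card_neighborSet_eq_degree] at h1
    exact h1
  obtain ⟨c, hc, hadj, huniq⟩ := structure_thm M.graph (p := p) (by omega) hreg f hf
  have hprop := hf.1
  -- orientation: `O u v` if `v` is an out-neighbour of `u`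
  have hO : ∀ u v w, M.graph.Adj u v → M.graph.Adj u w → M.graph.Adj v w →
      (f v ≠ c u ∨ f w ≠ c u) := by
    intro u v w _ _ h3
    by_contra hcon
    push Not at hcon
    exact hprop v w h3 (hcon.1.trans hcon.2.symm)
  -- triangles are cyclically oriented
  have hcyc : ∀ u v w, M.graph.Adj u v → M.graph.Adj u w → M.graph.Adj v w →
      (f v ≠ c u ∧ f u = c v ∧ f w ≠ c v ∧ f v = c w ∧ f u ≠ c w ∧ f w = c u) ∨
      (f w ≠ c u ∧ f u = c w ∧ f v ≠ c w ∧ f w = c v ∧ f u ≠ c v ∧ f v = c u) := by
    intro u v w h1 h2 h3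
    have a1 := hO u v w h1 h2 h3
    have a2 := hO v u w h1.symm h3 h2
    have a3 := hO w u v h2.symm h3.symm h1
    rcases hadj u v h1 with b1 | b1 <;> rcases hadj u w h2 with b2 | b2 <;>
      rcases hadj v w h3 with b3 | b3 <;> tauto
  have t1 : ∀ x, M.graph.Adj (pt x) (pt (M.r x)) := M.adj1
  have t2 : ∀ x, M.graph.Adj (pt x) (pt (M.r (M.r x))) := M.adj2
  have t3 : ∀ x, M.graph.Adj (pt (M.r x)) (pt (M.r (M.r x))) := fun x => M.adj1 (M.r x)
  let out : N × Tri (p + 2) → N × Tri (p + 2) := fun x =>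
    if f (pt (M.r x)) = c (pt x) then M.r (M.r x) else M.r x
  have hout1 : ∀ x, f (pt (out x)) ≠ c (pt x) := by
    intro x
    by_cases h1 : f (pt (M.r x)) = c (pt x)
    · simp only [out, if_pos h1]
      rcases hO _ _ _ (t1 x) (t2 x) (t3 x) with h2 | h2
      · exact absurd h1 h2
      · exact h2
    · simp only [out, if_neg h1]
      exact h1
  have hout2 : ∀ x, M.graph.Adj (pt x) (pt (out x)) := by
    intro x
    by_cases h1 : f (pt (M.r x)) = c (pt x)
    · simp only [out, if_pos h1]
      exact t2 x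
    · simp only [out, if_neg h1]
      exact t1 x
  let lam : N × Tri (p + 2) → Tri (p + 2) := fun x =>
    ⟨c (pt x), f (pt x), f (pt (out x)), hc _, hprop _ _ (hout2 x), (hout1 x).symm⟩
  have ha : ∀ x y, pt x = pt y → Arc (lam x) (lam y) := fun x y h =>
    ⟨congrArg c h, congrArg f h⟩
  have hb : ∀ x y, pt x = pt y → lam x = lam y → x = y := by
    intro x y hxy hl
    have h1 : f (pt (out x)) = f (pt (out y)) := congrArg Tri.c hl
    have h2 := huniq (pt x) (pt (out x)) (pt (out y)) (hout2 x)
      (by rw [hxy]; exact hout2 y) h1 (hout1 x)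
    by_cases e1 : f (pt (M.r x)) = c (pt x) <;> by_cases e2 : f (pt (M.r y)) = c (pt y)
    · simp only [out, if_pos e1, if_pos e2] at h2
      exact M.lin2 hxy h2
    · simp only [out, if_pos e1, if_neg e2] at h2
      exact absurd h2.symm (M.lin12 hxy.symm)
    · simp only [out, if_neg e1, if_pos e2] at h2
      exact absurd h2 (M.lin12 hxy)
    · simp only [out, if_neg e1, if_neg e2] at h2
      exact M.lin1 hxy h2
  have hr : ∀ x, lam (M.r x) = rot (lam x) ∨ lam (M.r x) = rot (rot (lam x)) := by
    intro x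
    rcases hcyc _ _ _ (t1 x) (t2 x) (t3 x) with ⟨b1, b2, b3, b4, b5, b6⟩ | ⟨b1, b2, b3, b4, b5, b6⟩
    · left
      have e1 : out x = M.r x := if_neg b1
      have e2 : out (M.r x) = M.r (M.r x) := if_neg b3
      apply Tri.ext
      · exact b2.symm
      · change f (pt (M.r x)) = f (pt (out x))
        rw [e1]
      · change f (pt (out (M.r x))) = c (pt x)
        rw [e2]
        exact b6
    · right
      have e1 : out x = M.r (M.r x) := if_pos b6
      have e2 : out (M.r x) = M.r (M.r (M.r x)) := if_pos b4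
      apply Tri.ext
      · change c (pt (M.r x)) = f (pt (out x))
        rw [e1]
        exact b4.symm
      · exact b6
      · change f (pt (out (M.r x))) = f (pt x)
        rw [e2, M.r3]
  have hpt : ∀ g, PtMap (fun t => lam (g, t)) := by
    intro g
    refine ⟨fun s t hst => ha _ _ (pt_eq.2 ⟨rfl, hst⟩), fun s t hst h => ?_⟩
    exact congrArg Prod.snd (hb (g, s) (g, t) (pt_eq.2 ⟨rfl, hst⟩) h)
  have hln : ∀ g, LnMap (fun t => lam (M.σ (g, t))) := by
    intro g t
    have := hr (M.σ (g, t))
    unfold r at this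
    rw [M.inv] at this
    exact this
  have hlink : ∀ g, M.link g → ∀ t, lam (M.σ (g, t)) = lam (g, t) := by
    intro g hg t
    obtain ⟨m, hm⟩ := M.lport g hg
    have := no_cross (by omega) (hpt g) (hln g) m (fun t h1 h2 => by
      change lam (g, t) = lam (M.σ (g, t))
      rw [hm t h1 h2])
    exact (congrFun this t).symm
  have hσ : ∀ x, lam (M.σ x) = lam x := by
    intro x
    by_cases h1 : M.σ x = x
    · rw [h1]
    rcases M.bip x h1 with h2 | h2
    · exact hlink x.1 h2 x.2
    · have := hlink (M.σ x).1 h2 (M.σ x).2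
      change lam (M.σ (M.σ x)) = lam (M.σ x) at this
      rw [M.inv] at this
      exact this.symm
  have hln2 : ∀ g, LnMap (fun t => lam (g, t)) := by
    intro g
    have : (fun t => lam (g, t)) = fun t => lam (M.σ (g, t)) := funext fun t => (hσ _).symm
    rw [this]
    exact hln g
  have hinj : ∀ g, Function.Injective (fun t => lam (g, t)) := by
    intro g
    have h0 : (0 : Fin (p + 2)) ≠ 1 := by
      intro h
      have := congrArg Fin.val h
      simp at this
    obtain ⟨x, hx, hx', -⟩ := exists4 (k := p + 2) (by omega) 0 1 1 1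
    exact (bij (by omega) (hpt g) (hln2 g) (m₁ := ⟨0, 1, x, h0, hx'.symm, hx.symm⟩)
      (m₂ := ⟨1, 0, x, h0.symm, hx.symm, hx'.symm⟩)
      (fun h => h0 (congrArg Tri.a h)) (fun t _ _ => rfl)).1
  exact ⟨lam, hσ, fun g => ⟨hpt g, hln2 g, hinj g,
    fun t => rev_eq (by omega) (hpt g) (hln2 g) (hinj g) t⟩⟩

end Net

end Pool.Agent.Q227.ST
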