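import Pool.Agent.Q227.ST.A3
import Pool.Agent.Q227.ST.A4

/-!
# Star colourings from compatible permutations
-/

set_option autoImplicit false

namespace Pool.Agent.Q227.ST

variable {k : ℕ} {N : Type}

/-- apply a permutation of the colours -/
def mapT (π : Equiv.Perm (Fin k)) (t : Tri k) : Tri k :=
  ⟨π t.a, π t.b, π t.c, fun h => t.ab (π.injective h), fun h => t.bc (π.injective h),
    fun h => t.ac (π.injective h)⟩

namespace Net

theorem complete (M : Net k N) (π : N → Equiv.Perm (Fin k))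
    (hπ : ∀ x, M.σ x ≠ x → mapT (π (M.σ x).1) (M.σ x).2 = mapT (π x.1) x.2) :
    StarColourable M.graph k := by
  let lam : N × Tri k → Tri k := fun x => mapT (π x.1) x.2
  let c : N × ArcT k → Fin k := fun P => π P.1 P.2.1.1
  let f : N × ArcT k → Fin k := fun P => π P.1 P.2.1.2
  have hσ : ∀ x, lam (M.σ x) = lam x := by
    intro x
    by_cases h1 : M.σ x = x
    · rw [h1]
    · exact hπ x h1
  have hr : ∀ x, lam (M.r x) = rot (lam x) := by
    intro x
    unfold r
    rw [hσ]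
    change rot (lam (M.σ x)) = _
    rw [hσ]
  have hr2 : ∀ x, lam (M.r (M.r x)) = rot (rot (lam x)) := fun x => by rw [hr, hr]
  have e1 : ∀ x, c (pt x) = (lam x).a := fun x => rfl
  have e2 : ∀ x, f (pt x) = (lam x).b := fun x => rfl
  have e3 : ∀ x, f (pt (M.r x)) = (lam x).c := fun x => by rw [e2, hr]; rfl
  have e4 : ∀ x, f (pt (M.r (M.r x))) = (lam x).a := fun x => by rw [e2, hr2]; rfl
  have e5 : ∀ x, c (pt (M.r x)) = (lam x).b := fun x => by rw [e1, hr]; rfl
  have e6 : ∀ x, c (pt (M.r (M.r x))) = (lam x).c := fun x => by rw [e1, hr2]; rfl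
  have hb : ∀ x y, pt x = pt y → (lam x).c = (lam y).c → x = y := by
    rintro ⟨g, a, b, d, p, q, s⟩ ⟨g', a', b', d', p', q', s'⟩ h h'
    obtain ⟨h1, h2, h3⟩ := pt_eq.1 h
    simp only at h1 h2 h3
    subst h1 h2 h3
    have h4 : d = d' := (π g).injective h'
    subst h4
    rfl
  have huniq : ∀ P Q R, M.graph.Adj P Q → M.graph.Adj P R → f Q = f R → f Q ≠ c P → Q = R := by
    rintro P Q R ⟨x, rfl, hQ⟩ ⟨y, hy, hR⟩ h1 h2
    have hc : c (pt y) = c (pt x) := by rw [hy]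
    rcases hQ with rfl | rfl
    · rcases hR with rfl | rfl
      · rw [e3, e3] at h1
        rw [hb x y hy.symm h1]
      · rw [h1, e4, ← e1, hc] at h2
        exact absurd rfl h2
    · rw [e4, ← e1] at h2
      exact absurd rfl h2
  have hadj : ∀ P Q, M.graph.Adj P Q → f P ≠ f Q ∧ ¬ (f P = c Q ∧ f Q = c P) := by
    rintro P Q ⟨x, rfl, rfl | rfl⟩
    · rw [e3, e2, e5, e1]
      exact ⟨(lam x).bc, fun h => (lam x).ac h.2.symm⟩
    · rw [e4, e2, e6, e1]
      exact ⟨(lam x).ab.symm, fun h => (lam x).bc h.1⟩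
  refine ⟨f, fun P Q h => (hadj P Q h).1, ?_⟩
  rintro v₁ v₂ v₃ v₄ h12 h23 h34 n13 - n24 ⟨c1, c2⟩
  have h1 : f v₁ = c v₂ := by
    by_contra hne
    exact n13 (huniq v₂ v₁ v₃ h12.symm h23 c1 hne)
  have h2 : f v₂ = c v₃ := by
    by_contra hne
    exact n24 (huniq v₃ v₂ v₄ h23.symm h34 c2 hne)
  exact (hadj v₂ v₃ h23).2 ⟨h2, c1.symm.trans h1⟩

end Net

end Pool.Agent.Q227.ST
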