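import Pool.Agent.Q227.ST.A5
import Pool.Agent.Q227.ST.A6

/-!
# Networks from lists of links
-/

set_option autoImplicit false

namespace Pool.Agent.Q227.ST

/-- names of the main nodes -/
abbrev MC : Type := ℕ × ℕ

/-- names of the nodes; a link is named by its two ends -/
abbrev NC : Type := (MC × ℕ) × (MC × ℕ)

/-- names of the flags -/
abbrev FC : Type := NC × ℕ × ℕ × ℕ

/-- the name of a main node -/
def mn (g : MC) : NC := ((g, 0), (g, 0))

/-- the exchanged flags of a link -/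
def prs (Lk : List NC) : List (FC × FC) :=
  Lk.flatMap fun ψ => [((mn ψ.1.1, 1, 0, ψ.1.2), (ψ, 1, 0, 2)),
    ((mn ψ.2.1, 0, 1, ψ.2.2), (ψ, 0, 1, 2))]

/-- the exchange of flags -/
def sg (Lk : List NC) (x : FC) : FC :=
  (((prs Lk).filter fun p => decide (p.1 = x) || decide (p.2 = x)).head?).elim x
    fun p => if p.1 = x then p.2 else p.1

/-- the conditions on the links -/
structure Good (k : ℕ) (Mn : List MC) (Lk : List NC) : Prop where
  r1 : ∀ ψ ∈ Lk, 2 ≤ ψ.1.2 ∧ ψ.1.2 < k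
  r2 : ∀ ψ ∈ Lk, 2 ≤ ψ.2.2 ∧ ψ.2.2 < k
  s : ∀ ψ ∈ Lk, ∀ χ ∈ Lk, ψ.1 = χ.1 → ψ = χ
  d : ∀ ψ ∈ Lk, ∀ χ ∈ Lk, ψ.2 = χ.2 → ψ = χ
  n : ∀ ψ ∈ Lk, ψ.1.1 ≠ ψ.2.1
  m1 : ∀ ψ ∈ Lk, ψ.1.1 ∈ Mn
  m2 : ∀ ψ ∈ Lk, ψ.2.1 ∈ Mn

/-- one pair of exchanged flags -/
def R (ψ : NC) (b : Bool) : FC × FC :=
  if b then ((mn ψ.1.1, 1, 0, ψ.1.2), (ψ, 1, 0, 2)) else ((mn ψ.2.1, 0, 1, ψ.2.2), (ψ, 0, 1, 2))

theorem mem_prs {Lk : List NC} {p : FC × FC} : p ∈ prs Lk ↔ ∃ ψ ∈ Lk, ∃ b, p = R ψ b := by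
  unfold prs R
  simp only [List.mem_flatMap, List.mem_cons, List.not_mem_nil, or_false]
  constructor
  · rintro ⟨ψ, h, h1 | h1⟩
    · exact ⟨ψ, h, true, by rw [h1]; rfl⟩
    · exact ⟨ψ, h, false, by rw [h1]; rfl⟩
  · rintro ⟨ψ, h, b, h1⟩
    cases b
    · exact ⟨ψ, h, Or.inr (by rw [h1]; rfl)⟩
    · exact ⟨ψ, h, Or.inl (by rw [h1]; rfl)⟩

theorem mn_inj {g h : MC} (e : mn g = mn h) : g = h := congrArg (fun x : NC => x.1.1) e

variable {k : ℕ} {Mn : List MC} {Lk : List NC}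

namespace Good

theorem u1 (H : Good k Mn Lk) {p q : FC × FC} (hp : p ∈ prs Lk) (hq : q ∈ prs Lk)
    (h : p.1 = q.1) : p = q := by
  obtain ⟨ψ, h1, b, rfl⟩ := mem_prs.1 hp
  obtain ⟨χ, h2, b', rfl⟩ := mem_prs.1 hq
  cases b <;> cases b'
  · change (mn ψ.2.1, 0, 1, ψ.2.2) = (mn χ.2.1, 0, 1, χ.2.2) at h
    simp only [Prod.mk.injEq, true_and] at h
    rw [H.d ψ h1 χ h2 (Prod.ext (mn_inj h.1) h.2)]
  · exact absurd (show (0 : ℕ) = 1 from congrArg (fun x : FC => x.2.1) h) (by decide)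
  · exact absurd (show (1 : ℕ) = 0 from congrArg (fun x : FC => x.2.1) h) (by decide)
  · change (mn ψ.1.1, 1, 0, ψ.1.2) = (mn χ.1.1, 1, 0, χ.1.2) at h
    simp only [Prod.mk.injEq, true_and] at h
    rw [H.s ψ h1 χ h2 (Prod.ext (mn_inj h.1) h.2)]

theorem u2 {p q : FC × FC} (hp : p ∈ prs Lk) (hq : q ∈ prs Lk)
    (h : p.2 = q.2) : p = q := by
  obtain ⟨ψ, h1, b, rfl⟩ := mem_prs.1 hp
  obtain ⟨χ, h2, b', rfl⟩ := mem_prs.1 hq
  cases b <;> cases b'
  · have : ψ = χ := congrArg (fun x : FC => x.1) h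
    rw [this]
  · exact absurd (show (0 : ℕ) = 1 from congrArg (fun x : FC => x.2.1) h) (by decide)
  · exact absurd (show (1 : ℕ) = 0 from congrArg (fun x : FC => x.2.1) h) (by decide)
  · have : ψ = χ := congrArg (fun x : FC => x.1) h
    rw [this]

theorem v1 {p : FC × FC} (hp : p ∈ prs Lk) : p.1.1.1.2 = 0 := by
  obtain ⟨ψ, h1, b, rfl⟩ := mem_prs.1 hp
  cases b <;> rfl

theorem v2 (H : Good k Mn Lk) {p : FC × FC} (hp : p ∈ prs Lk) : p.2.1.1.2 ≠ 0 := by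
  obtain ⟨ψ, h1, b, rfl⟩ := mem_prs.1 hp
  have := (H.r1 ψ h1).1
  cases b
  · change ψ.1.2 ≠ 0
    omega
  · change ψ.1.2 ≠ 0
    omega

theorem u12 (H : Good k Mn Lk) {p q : FC × FC} (hp : p ∈ prs Lk) (hq : q ∈ prs Lk) :
    p.1 ≠ q.2 := by
  intro h
  have h1 := v1 hp
  rw [h] at h1
  exact H.v2 hq h1

theorem sg1 (H : Good k Mn Lk) {p : FC × FC} (hp : p ∈ prs Lk) : sg Lk p.1 = p.2 := by
  unfold sg
  cases h : ((prs Lk).filter fun q => decide (q.1 = p.1) || decide (q.2 = p.1)).head? with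
  | none =>
    rw [List.head?_eq_none_iff, List.filter_eq_nil_iff] at h
    exact absurd (by simp) (h p hp)
  | some q =>
    have h1 := List.mem_filter.1 (List.mem_of_mem_head? h)
    simp only [Bool.or_eq_true, decide_eq_true_eq] at h1
    rcases h1 with ⟨h1, h2 | h2⟩
    · have := H.u1 h1 hp h2
      subst this
      simp
    · exact absurd h2.symm (H.u12 hp h1)

theorem sg2 (H : Good k Mn Lk) {p : FC × FC} (hp : p ∈ prs Lk) : sg Lk p.2 = p.1 := by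
  unfold sg
  cases h : ((prs Lk).filter fun q => decide (q.1 = p.2) || decide (q.2 = p.2)).head? with
  | none =>
    rw [List.head?_eq_none_iff, List.filter_eq_nil_iff] at h
    exact absurd (by simp) (h p hp)
  | some q =>
    have h1 := List.mem_filter.1 (List.mem_of_mem_head? h)
    simp only [Bool.or_eq_true, decide_eq_true_eq] at h1
    rcases h1 with ⟨h1, h2 | h2⟩
    · exact absurd h2 (H.u12 h1 hp)
    · have := u2 h1 hp h2
      subst this
      simp only [Option.elim]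
      rw [if_neg (H.u12 h1 h1)]

theorem sg0 {x : FC} (hx : ∀ p ∈ prs Lk, p.1 ≠ x ∧ p.2 ≠ x) : sg Lk x = x := by
  unfold sg
  cases h : ((prs Lk).filter fun q => decide (q.1 = x) || decide (q.2 = x)).head? with
  | none => rfl
  | some q =>
    have h1 := List.mem_filter.1 (List.mem_of_mem_head? h)
    simp only [Bool.or_eq_true, decide_eq_true_eq] at h1
    rcases h1 with ⟨h1, h2 | h2⟩
    · exact absurd h2 (hx q h1).1
    · exact absurd h2 (hx q h1).2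

theorem sg_cases (H : Good k Mn Lk) (x : FC) :
    (∃ p ∈ prs Lk, x = p.1 ∧ sg Lk x = p.2) ∨ (∃ p ∈ prs Lk, x = p.2 ∧ sg Lk x = p.1) ∨
      sg Lk x = x := by
  by_cases h : ∀ p ∈ prs Lk, p.1 ≠ x ∧ p.2 ≠ x
  · exact Or.inr (Or.inr (sg0 h))
  · push Not at h
    obtain ⟨p, hp, h⟩ := h
    by_cases h1 : p.1 = x
    · subst h1
      exact Or.inl ⟨p, hp, rfl, H.sg1 hp⟩
    · have h2 := h h1
      subst h2
      exact Or.inr (Or.inl ⟨p, hp, rfl, H.sg2 hp⟩)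

theorem sg_inv (H : Good k Mn Lk) (x : FC) : sg Lk (sg Lk x) = x := by
  rcases H.sg_cases x with ⟨p, hp, rfl, h⟩ | ⟨p, hp, rfl, h⟩ | h
  · rw [h, H.sg2 hp]
  · rw [h, H.sg1 hp]
  · rw [h, h]

theorem sg_ne (H : Good k Mn Lk) (x : FC) (h : sg Lk x ≠ x) : (sg Lk x).1 ≠ x.1 := by
  rcases H.sg_cases x with ⟨p, hp, rfl, h1⟩ | ⟨p, hp, rfl, h1⟩ | h1
  · rw [h1]
    intro h2
    have h3 := v1 hp
    rw [← h2] at h3
    exact H.v2 hp h3
  · rw [h1]
    intro h2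
    have h3 := v1 hp
    rw [h2] at h3
    exact H.v2 hp h3
  · exact absurd h1 h

theorem ends_ne (H : Good k Mn Lk) {ψ : NC} (h : ψ ∈ Lk) {b b' : Bool}
    (e : (R ψ b).1.1 = (R ψ b').1.1) : b = b' := by
  cases b <;> cases b'
  · rfl
  · exact absurd (mn_inj e).symm (H.n ψ h)
  · exact absurd (mn_inj e) (H.n ψ h)
  · rfl

theorem snd_node (ψ : NC) (b : Bool) : (R ψ b).2.1 = ψ := by cases b <;> rfl

theorem sg_one (H : Good k Mn Lk) (x y : FC) (h1 : x.1 = y.1) (h2 : (sg Lk x).1 = (sg Lk y).1)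
    (h : sg Lk x ≠ x) : x = y := by
  have hx := H.sg_ne x h
  have hy : sg Lk y ≠ y := by
    intro h3
    rw [h3] at h2
    exact hx (h2.trans h1.symm)
  rcases H.sg_cases x with ⟨p, hp, rfl, e1⟩ | ⟨p, hp, rfl, e1⟩ | e1
  · rcases H.sg_cases y with ⟨q, hq, rfl, e2⟩ | ⟨q, hq, rfl, e2⟩ | e2
    · rw [e1, e2] at h2
      obtain ⟨ψ, g1, b, rfl⟩ := mem_prs.1 hp
      obtain ⟨χ, g2, b', rfl⟩ := mem_prs.1 hq
      rw [snd_node, snd_node] at h2
      subst h2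
      rw [H.ends_ne g1 h1]
    · have h3 := v1 hp
      rw [h1] at h3
      exact absurd h3 (H.v2 hq)
    · exact absurd e2 hy
  · rcases H.sg_cases y with ⟨q, hq, rfl, e2⟩ | ⟨q, hq, rfl, e2⟩ | e2
    · have h3 := v1 hq
      rw [← h1] at h3
      exact absurd h3 (H.v2 hp)
    · rw [e1, e2] at h2
      obtain ⟨ψ, g1, b, rfl⟩ := mem_prs.1 hp
      obtain ⟨χ, g2, b', rfl⟩ := mem_prs.1 hq
      rw [snd_node, snd_node] at h1
      subst h1
      rw [H.ends_ne g1 h2]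
    · exact absurd e2 hy
  · exact absurd e1 h

/-- the form of the exchanged flags -/
theorem form (H : Good k Mn Lk) (x : FC) (h : sg Lk x ≠ x) :
    ((x.2.1 = 1 ∧ x.2.2.1 = 0) ∨ (x.2.1 = 0 ∧ x.2.2.1 = 1)) ∧ 2 ≤ x.2.2.2 ∧
      (x.1.1.2 ≠ 0 → x.2.2.2 = 2) := by
  rcases H.sg_cases x with ⟨p, hp, rfl, h1⟩ | ⟨p, hp, rfl, h1⟩ | h1
  · have h3 := v1 hp
    obtain ⟨ψ, g1, b, rfl⟩ := mem_prs.1 hp
    refine ⟨?_, ?_, fun h4 => absurd h3 h4⟩
    · cases b
      · exact Or.inr ⟨rfl, rfl⟩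
      · exact Or.inl ⟨rfl, rfl⟩
    · cases b
      · exact (H.r2 ψ g1).1
      · exact (H.r1 ψ g1).1
  · obtain ⟨ψ, g1, b, rfl⟩ := mem_prs.1 hp
    refine ⟨?_, ?_, fun _ => ?_⟩
    · cases b
      · exact Or.inr ⟨rfl, rfl⟩
      · exact Or.inl ⟨rfl, rfl⟩
    · cases b
      · exact le_rfl
      · exact le_rfl
    · cases b <;> rfl
  · exact absurd h1 h

end Good

/-- the nodes -/
def nds (Mn : List MC) (Lk : List NC) : List NC := Mn.map mn ++ Lk

/-- the type of the nodes -/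
abbrev Nd (Mn : List MC) (Lk : List NC) : Type := {g : NC // g ∈ nds Mn Lk}

instance : Finite (Nd Mn Lk) := by
  classical
  exact Finite.of_injective (fun g : Nd Mn Lk => (⟨g.1, List.mem_toFinset.2 g.2⟩ :
    {x // x ∈ (nds Mn Lk).toFinset})) fun g h e => Subtype.ext (by
      simpa using e)

/-- the name of a flag -/
def val (x : Nd Mn Lk × Tri k) : FC := (x.1.1, x.2.a.1, x.2.b.1, x.2.c.1)

theorem val_inj {x y : Nd Mn Lk × Tri k} (h : val x = val y) : x = y := by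
  simp only [val, Prod.mk.injEq] at h
  exact Prod.ext (Subtype.ext h.1) (Tri.ext (Fin.ext h.2.1) (Fin.ext h.2.2.1) (Fin.ext h.2.2.2))

theorem exists_val {n : NC} (hn : n ∈ nds Mn Lk) {a b c : ℕ} (ha : a < k) (hb : b < k) (hc : c < k)
    (hab : a ≠ b) (hbc : b ≠ c) (hac : a ≠ c) : ∃ y : Nd Mn Lk × Tri k, val y = (n, a, b, c) :=
  ⟨(⟨n, hn⟩, ⟨⟨a, ha⟩, ⟨b, hb⟩, ⟨c, hc⟩, fun h => hab (congrArg Fin.val h),
    fun h => hbc (congrArg Fin.val h), fun h => hac (congrArg Fin.val h)⟩), rfl⟩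

theorem exists_sg (hk : 3 ≤ k) (H : Good k Mn Lk) (x : Nd Mn Lk × Tri k) :
    ∃ y : Nd Mn Lk × Tri k, val y = sg Lk (val x) := by
  rcases H.sg_cases (val x) with ⟨p, hp, h1, h2⟩ | ⟨p, hp, h1, h2⟩ | h
  · rw [h2]
    obtain ⟨ψ, g1, b, rfl⟩ := mem_prs.1 hp
    cases b
    · exact exists_val (List.mem_append_right _ g1) (by omega) (by omega) (by omega) (by omega)
        (by omega) (by omega)
    · exact exists_val (List.mem_append_right _ g1) (by omega) (by omega) (by omega) (by omega)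
        (by omega) (by omega)
  · rw [h2]
    obtain ⟨ψ, g1, b, rfl⟩ := mem_prs.1 hp
    have r1 := H.r1 ψ g1
    have r2 := H.r2 ψ g1
    cases b
    · exact exists_val (List.mem_append_left _ (List.mem_map.2 ⟨_, H.m2 ψ g1, rfl⟩)) (by omega)
        (by omega) (by omega) (by omega) (by omega) (by omega)
    · exact exists_val (List.mem_append_left _ (List.mem_map.2 ⟨_, H.m1 ψ g1, rfl⟩)) (by omega)
        (by omega) (by omega) (by omega) (by omega) (by omega)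
  · exact ⟨x, h.symm⟩

/-- the network of the links -/
theorem exists_net (hk : 3 ≤ k) (H : Good k Mn Lk) :
    ∃ M : Net k (Nd Mn Lk), ∀ x, val (M.σ x) = sg Lk (val x) := by
  choose σ hσ using exists_sg hk H
  have hne : ∀ x, σ x ≠ x → sg Lk (val x) ≠ val x := by
    intro x h h2
    exact h (val_inj ((hσ x).trans h2))
  refine ⟨⟨σ, ?_, ?_, ?_, ?_, fun g => g.1.1.2 ≠ 0, ?_, ?_⟩, hσ⟩
  · intro x
    exact val_inj (by rw [hσ, hσ, H.sg_inv])
  · intro x h h2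
    have h3 := H.sg_ne _ (hne x h)
    rw [← hσ] at h3
    exact h3 (congrArg Subtype.val h2)
  · intro x y h1 h2 h3
    refine val_inj (H.sg_one _ _ (congrArg Subtype.val h1) ?_ (hne x h3))
    rw [← hσ, ← hσ]
    exact congrArg Subtype.val h2
  · intro x y h1 h2 h3 h4
    obtain ⟨a1, a2, -⟩ := H.form _ (hne x h2)
    obtain ⟨b1, b2, -⟩ := H.form _ (hne y h3)
    simp only [val] at a1 a2 b1 b2
    rcases h4 with h4 | h4
    · rw [h4] at b1 b2
      simp only [rot] at b1 b2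
      omega
    · rw [h4] at b1 b2
      simp only [rot] at b1 b2
      omega
  · intro x h
    have h2 := hσ x
    rcases H.sg_cases (val x) with ⟨p, hp, e1, e2⟩ | ⟨p, hp, e1, e2⟩ | e
    · right
      rw [e2] at h2
      have h3 := H.v2 hp
      rw [← h2] at h3
      exact h3
    · left
      have h3 := H.v2 hp
      rw [← e1] at h3
      exact h3
    · exact absurd e (hne x h)
  · intro g hg
    refine ⟨⟨⟨1, by omega⟩, ⟨0, by omega⟩, ⟨2, by omega⟩, by simp, by simp, by simp⟩, ?_⟩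
    intro t h1 h2
    by_contra h3
    obtain ⟨a1, a2, a3⟩ := H.form _ (hne (g, t) h3)
    have a4 := a3 hg
    simp only [val] at a1 a4
    rcases a1 with ⟨a1, a5⟩ | ⟨a1, a5⟩
    · exact h1 (Tri.ext (Fin.ext a1) (Fin.ext a5) (Fin.ext a4))
    · exact h2 (Tri.ext (Fin.ext a1) (Fin.ext a5) (Fin.ext a4))

end Pool.Agent.Q227.ST
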