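import Pool.Agent.Q227.ST.B1
import Pool.Agent.Q227.MkG

/-!
# The graph of a list of links
-/

set_option autoImplicit false

namespace Pool.Agent.Q227.ST

open Pool.Agent.H679R2

/-- names of the points -/
abbrev VC : Type := NC × ℕ × ℕ

/-- rotation of the triangle -/
def rotC (x : FC) : FC := (x.1, x.2.2.1, x.2.2.2, x.2.1)

/-- the next flag of the line of a flag -/
def rC (Lk : List NC) (x : FC) : FC := sg Lk (rotC (sg Lk x))

/-- the point of a flag -/
def ptC (x : FC) : VC := (x.1, x.2.1, x.2.2.1)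

/-- adjacency of points -/
def half (k : ℕ) (Lk : List NC) (u v : VC) : Bool :=
  (List.range k).any fun c => (!decide (c = u.2.1) && !decide (c = u.2.2)) &&
    (decide (ptC (rC Lk (u.1, u.2.1, u.2.2, c)) = v) ||
      decide (ptC (rC Lk (rC Lk (u.1, u.2.1, u.2.2, c))) = v))

/-- adjacency of points, symmetrised -/
def adjB (k : ℕ) (Lk : List NC) (u v : VC) : Bool :=
  !decide (u = v) && (half k Lk u v || half k Lk v u)

/-- the list of the points -/
def VL (k : ℕ) (Mn : List MC) (Lk : List NC) : List VC :=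
  ((nds Mn Lk) ×ˢ ((List.range k ×ˢ List.range k).filter fun p => !decide (p.1 = p.2))).dedup

theorem adjB_symm {k : ℕ} {Lk : List NC} (u v : VC) (h : adjB k Lk u v = true) :
    adjB k Lk v u = true := by
  unfold adjB at h ⊢
  rw [Bool.and_eq_true, Bool.or_eq_true, Bool.not_eq_true', decide_eq_false_iff_not] at h ⊢
  exact ⟨fun e => h.1 e.symm, h.2.symm⟩

theorem adjB_irrefl {k : ℕ} {Lk : List NC} (u : VC) : adjB k Lk u u = false := by
  unfold adjB
  simp

variable {k : ℕ} {Mn : List MC} {Lk : List NC}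

/-- the name of a point -/
def valP (P : Nd Mn Lk × ArcT k) : VC := (P.1.1, P.2.1.1.1, P.2.1.2.1)

theorem valP_inj {P Q : Nd Mn Lk × ArcT k} (h : valP P = valP Q) : P = Q := by
  simp only [valP, Prod.mk.injEq] at h
  exact Prod.ext (Subtype.ext h.1) (Subtype.ext (Prod.ext (Fin.ext h.2.1) (Fin.ext h.2.2)))

theorem valP_mem (P : Nd Mn Lk × ArcT k) : valP P ∈ VL k Mn Lk := by
  refine List.mem_dedup.2 (List.pair_mem_product.2 ⟨P.1.2, List.mem_filter.2
    ⟨List.pair_mem_product.2 ⟨List.mem_range.2 P.2.1.1.2, List.mem_range.2 P.2.1.2.2⟩, ?_⟩⟩)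
  simp only [valP, Bool.not_eq_true', decide_eq_false_iff_not]
  exact fun h => P.2.2 (Fin.ext h)

theorem exists_valP {v : VC} (hv : v ∈ VL k Mn Lk) : ∃ P : Nd Mn Lk × ArcT k, valP P = v := by
  obtain ⟨n, a, b⟩ := v
  obtain ⟨h1, h2⟩ := List.pair_mem_product.1 (List.mem_dedup.1 hv)
  obtain ⟨h3, h4⟩ := List.mem_filter.1 h2
  obtain ⟨h5, h6⟩ := List.pair_mem_product.1 h3
  simp only [Bool.not_eq_true', decide_eq_false_iff_not] at h4
  exact ⟨(⟨n, h1⟩, ⟨(⟨a, List.mem_range.1 h5⟩, ⟨b, List.mem_range.1 h6⟩),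
    fun h => h4 (congrArg Fin.val h)⟩), rfl⟩

variable {M : Net k (Nd Mn Lk)}

theorem val_r (hM : ∀ x, val (M.σ x) = sg Lk (val x)) (x : Nd Mn Lk × Tri k) :
    val (M.r x) = rC Lk (val x) := by
  unfold Net.r rC
  rw [hM]
  congr 1
  change rotC (val (M.σ x)) = _
  rw [hM]

theorem half_iff (hM : ∀ x, val (M.σ x) = sg Lk (val x)) (P Q : Nd Mn Lk × ArcT k) :
    M.graph.Adj P Q ↔ half k Lk (valP P) (valP Q) = true := by
  unfold half
  rw [List.any_eq_true]
  have h1 : ∀ x : Nd Mn Lk × Tri k, valP (pt x) = ptC (val x) := fun x => rfl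
  constructor
  · rintro ⟨x, rfl, h⟩
    refine ⟨x.2.c.1, List.mem_range.2 x.2.c.2, ?_⟩
    rw [Bool.and_eq_true, Bool.and_eq_true, Bool.or_eq_true]
    simp only [Bool.not_eq_true', decide_eq_false_iff_not, decide_eq_true_eq]
    refine ⟨⟨fun e => x.2.ac (Fin.ext e.symm), fun e => x.2.bc (Fin.ext e.symm)⟩, ?_⟩
    rcases h with rfl | rfl
    · left
      rw [h1 (M.r x), val_r hM]
      rfl
    · right
      rw [h1 (M.r (M.r x)), val_r hM, val_r hM]
      rfl
  · rintro ⟨c, hc, h⟩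
    rw [Bool.and_eq_true, Bool.and_eq_true, Bool.or_eq_true] at h
    simp only [Bool.not_eq_true', decide_eq_false_iff_not, decide_eq_true_eq] at h
    obtain ⟨⟨h2, h3⟩, h4⟩ := h
    have e : (⟨P.2.1.1.1, P.2.1.1.2⟩ : Fin k) = P.2.1.1 := rfl
    refine ⟨(P.1, ⟨P.2.1.1, P.2.1.2, ⟨c, List.mem_range.1 hc⟩, P.2.2,
      fun h => h3 (congrArg Fin.val h).symm, fun h => h2 (congrArg Fin.val h).symm⟩), rfl, ?_⟩
    rcases h4 with h4 | h4
    · left
      apply valP_inj
      rw [h1, val_r hM]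
      exact h4
    · right
      apply valP_inj
      rw [h1, val_r hM, val_r hM]
      exact h4

theorem adjB_iff (hM : ∀ x, val (M.σ x) = sg Lk (val x)) (P Q : Nd Mn Lk × ArcT k) :
    M.graph.Adj P Q ↔ adjB k Lk (valP P) (valP Q) = true := by
  unfold adjB
  rw [Bool.and_eq_true, Bool.or_eq_true, Bool.not_eq_true', decide_eq_false_iff_not,
    ← half_iff hM, ← half_iff hM]
  constructor
  · intro h
    exact ⟨fun e => h.ne (valP_inj e), Or.inl h⟩
  · rintro ⟨-, h | h⟩
    · exact h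
    · exact h.symm

theorem graph_iso (hM : ∀ x, val (M.σ x) = sg Lk (val x)) :
    Nonempty (toGraph (mkG (VL k Mn Lk) (adjB k Lk)) ≃g M.graph) := by
  obtain ⟨e⟩ := mkG_iso (L := VL k Mn Lk) (List.nodup_dedup _) (adjB k Lk) adjB_symm adjB_irrefl
  refine ⟨e.trans (SimpleGraph.Iso.symm ⟨Equiv.ofBijective (fun P => ⟨valP P, valP_mem P⟩)
    ⟨fun P Q h => valP_inj (congrArg Subtype.val h), fun v => ?_⟩, ?_⟩)⟩
  · obtain ⟨P, hP⟩ := exists_valP v.2
    exact ⟨P, Subtype.ext hP⟩
  · intro P Q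
    exact (adjB_iff hM P Q).symm

/-! ### The class -/

/-- every vertex has `d` neighbours -/
def IsRegular {V : Type} (G : SimpleGraph V) (d : ℕ) : Prop := ∀ v, (G.neighborSet v).ncard = d

/-- no induced star with `m` leaves -/
def StarFree {V : Type} (G : SimpleGraph V) (m : ℕ) : Prop :=
  IsEmpty (completeBipartiteGraph (Fin 1) (Fin m) ↪g G)

theorem IsRegular.iso {V W : Type} {G : SimpleGraph V} {H : SimpleGraph W} (e : G ≃g H) {d : ℕ}
    (h : IsRegular H d) : IsRegular G d := by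
  intro v
  rw [← h (e v), ← Nat.card_coe_set_eq, ← Nat.card_coe_set_eq]
  exact Nat.card_congr (e.mapNeighborSet v)

theorem StarFree.iso {V W : Type} {G : SimpleGraph V} {H : SimpleGraph W} (e : G ≃g H) {m : ℕ}
    (h : StarFree H m) : StarFree G m :=
  ⟨fun f => h.false (f.trans e.toEmbedding)⟩

theorem net_regular {N : Type} [Finite N] (M : Net k N) : IsRegular M.graph (2 * (k - 2)) :=
  fun P => M.ncard_nb P

theorem net_free {N : Type} [Finite N] (M : Net k N) {m : ℕ} (hm : k - 2 < m) :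
    StarFree M.graph m := by
  classical
  refine ⟨fun f => ?_⟩
  have h1 := M.indep_le (f (Sum.inl 0)) (Finset.univ.image fun i : Fin m => f (Sum.inr i))
    (by
      intro Q hQ
      obtain ⟨i, -, rfl⟩ := Finset.mem_image.1 hQ
      rw [f.map_adj_iff]
      simp) (by
      intro Q hQ R hR
      obtain ⟨i, -, rfl⟩ := Finset.mem_image.1 hQ
      obtain ⟨j, -, rfl⟩ := Finset.mem_image.1 hR
      rw [f.map_adj_iff]
      simp)
  rw [Finset.card_image_of_injective _ (fun i j h => Sum.inr_injective (f.injective h)),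
    Finset.card_univ, Fintype.card_fin] at h1
  omega

end Pool.Agent.Q227.ST
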