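import Pool.Agent.Q227.ST.B2

/-!
# Star colourings of the graph of a list of links
-/

set_option autoImplicit false

namespace Pool.Agent.Q227.ST

variable {p : ℕ} {Mn : List MC} {Lk : List NC}

/-- the flag `(0, 1, j)` -/
def tA (p j : ℕ) (h2 : 2 ≤ j) (hj : j < p + 2) : Tri (p + 2) :=
  ⟨⟨0, by omega⟩, ⟨1, by omega⟩, ⟨j, hj⟩, by simp, by
    intro h
    have := congrArg Fin.val h
    simp only at this
    omega, by
    intro h
    have := congrArg Fin.val h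
    simp only at this
    omega⟩

theorem rev_inj {k : ℕ} {s t : Tri k} (h : rev s = rev t) : s = t := by
  rw [← rev2 s, h, rev2]

theorem sound_lk (hp : 3 ≤ p) (H : Good (p + 2) Mn Lk) {M : Net (p + 2) (Nd Mn Lk)}
    (hM : ∀ x, val (M.σ x) = sg Lk (val x)) (h : StarColourable M.graph (p + 2)) :
    ∃ Λ : MC → ℕ → Tri (p + 2),
      (∀ g ∈ Mn, ∀ i j, 2 ≤ i → i < p + 2 → 2 ≤ j → j < p + 2 → Arc (Λ g i) (Λ g j) ∧
        (Λ g i = Λ g j → i = j)) ∧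
      (∀ g ∈ Mn, ∀ h ∈ Mn, (∀ j, 3 ≤ j → j < p + 2 → Λ g j = Λ h j) → Λ g 2 = Λ h 2) ∧
      ∀ ψ ∈ Lk, Λ ψ.1.1 ψ.1.2 = Λ ψ.2.1 ψ.2.2 := by
  classical
  obtain ⟨lam, hσ, hlam⟩ := M.sound hp h
  have hmn : ∀ g ∈ Mn, mn g ∈ nds Mn Lk := fun g hg =>
    List.mem_append_left _ (List.mem_map.2 ⟨g, hg, rfl⟩)
  let Λ : MC → ℕ → Tri (p + 2) := fun g j =>
    if h : g ∈ Mn ∧ 2 ≤ j ∧ j < p + 2 then lam (⟨mn g, hmn g h.1⟩, tA p j h.2.1 h.2.2)
    else tA p 2 le_rfl (by omega)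
  have hΛ : ∀ g (hg : g ∈ Mn) j (h2 : 2 ≤ j) (hj : j < p + 2),
      Λ g j = lam (⟨mn g, hmn g hg⟩, tA p j h2 hj) := fun g hg j h2 hj => dif_pos ⟨hg, h2, hj⟩
  refine ⟨Λ, ?_, ?_, ?_⟩
  · intro g hg i j hi1 hi2 hj1 hj2
    rw [hΛ g hg i hi1 hi2, hΛ g hg j hj1 hj2]
    obtain ⟨h1, -, h3, -⟩ := hlam ⟨mn g, hmn g hg⟩
    refine ⟨h1.arc _ _ ⟨rfl, rfl⟩, fun h => ?_⟩
    have h4 := h3 h
    exact congrArg (fun t : Tri (p + 2) => t.c.1) h4
  · intro g hg h hh hgh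
    obtain ⟨-, -, g3, -⟩ := hlam ⟨mn g, hmn g hg⟩
    obtain ⟨h1, -, h3, -⟩ := hlam ⟨mn h, hmn h hh⟩
    obtain ⟨g1, -, -, -⟩ := hlam ⟨mn g, hmn g hg⟩
    have e3 := hgh 3 le_rfl (by omega)
    rw [hΛ g hg 3 (by omega) (by omega), hΛ h hh 3 (by omega) (by omega)] at e3
    have ha : Arc (lam (⟨mn h, hmn h hh⟩, tA p 2 le_rfl (by omega)))
        (lam (⟨mn g, hmn g hg⟩, tA p 2 le_rfl (by omega))) := by
      have a1 : Arc (lam (⟨mn h, hmn h hh⟩, tA p 2 le_rfl (by omega)))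
          (lam (⟨mn h, hmn h hh⟩, tA p 3 (by omega) (by omega))) := h1.arc _ _ ⟨rfl, rfl⟩
      have a2 : Arc (lam (⟨mn g, hmn g hg⟩, tA p 3 (by omega) (by omega)))
          (lam (⟨mn g, hmn g hg⟩, tA p 2 le_rfl (by omega))) := g1.arc _ _ ⟨rfl, rfl⟩
      rw [← e3] at a1
      exact a1.trans a2
    obtain ⟨s, hs1, hs2⟩ := h1.surj ha
    obtain ⟨a, b, c, s1, s2, s3⟩ := s
    obtain ⟨ha', hb'⟩ := hs1
    simp only [tA] at ha' hb'
    subst ha' hb'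
    rw [hΛ g hg 2 le_rfl (by omega), hΛ h hh 2 le_rfl (by omega)]
    have hc0 : c.1 ≠ 0 := fun e => s3 (Fin.ext e.symm)
    have hc1 : c.1 ≠ 1 := fun e => s2 (Fin.ext e.symm)
    by_cases hc : c.1 = 2
    · have : (⟨⟨0, by omega⟩, ⟨1, by omega⟩, c, s1, s2, s3⟩ : Tri (p + 2)) =
          tA p 2 le_rfl (by omega) := Tri.ext rfl rfl (Fin.ext hc)
      rw [this] at hs2
      exact hs2.symm
    · exfalso
      have h4 : (⟨⟨0, by omega⟩, ⟨1, by omega⟩, c, s1, s2, s3⟩ : Tri (p + 2)) =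
          tA p c.1 (by omega) c.2 := rfl
      have h5 := hgh c.1 (by omega) c.2
      rw [hΛ g hg c.1 (by omega) c.2, hΛ h hh c.1 (by omega) c.2] at h5
      rw [h4] at hs2
      change lam (⟨mn h, hmn h hh⟩, tA p c.1 (by omega) c.2) = _ at hs2
      have h6 := g3 (h5.trans hs2)
      exact hc (congrArg (fun t : Tri (p + 2) => t.c.1) h6)
  · intro ψ hψ
    have r1 := H.r1 ψ hψ
    have r2 := H.r2 ψ hψ
    have hn : ψ ∈ nds Mn Lk := List.mem_append_right _ hψ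
    rw [hΛ _ (H.m1 ψ hψ) _ r1.1 r1.2, hΛ _ (H.m2 ψ hψ) _ r2.1 r2.2]
    have e1 : M.σ (⟨mn ψ.1.1, hmn _ (H.m1 ψ hψ)⟩, rev (tA p ψ.1.2 r1.1 r1.2)) =
        (⟨ψ, hn⟩, rev (tA p 2 le_rfl (by omega))) := by
      apply val_inj
      rw [hM]
      exact H.sg1 (p := R ψ true) (mem_prs.2 ⟨ψ, hψ, true, rfl⟩)
    have e2 : M.σ (⟨mn ψ.2.1, hmn _ (H.m2 ψ hψ)⟩, tA p ψ.2.2 r2.1 r2.2) =
        (⟨ψ, hn⟩, tA p 2 le_rfl (by omega)) := by
      apply val_inj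
      rw [hM]
      exact H.sg1 (p := R ψ false) (mem_prs.2 ⟨ψ, hψ, false, rfl⟩)
    have f1 := hσ (⟨mn ψ.1.1, hmn _ (H.m1 ψ hψ)⟩, rev (tA p ψ.1.2 r1.1 r1.2))
    have f2 := hσ (⟨mn ψ.2.1, hmn _ (H.m2 ψ hψ)⟩, tA p ψ.2.2 r2.1 r2.2)
    rw [e1, (hlam _).2.2.2, (hlam _).2.2.2] at f1
    rw [e2] at f2
    exact (rev_inj f1).symm.trans f2

/-- a colour from its number -/
def fi (p j : ℕ) : Fin (p + 2) := if h : j < p + 2 then ⟨j, h⟩ else ⟨0, by omega⟩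

theorem fi_val {p j : ℕ} (h : j < p + 2) : (fi p j).1 = j := by
  unfold fi
  rw [dif_pos h]

theorem fi_eq {p j : ℕ} {x : Fin (p + 2)} (h : x.1 = j) : x = fi p j :=
  Fin.ext (by rw [fi_val (h ▸ x.2), h])

theorem complete_lk (hp : 3 ≤ p) (H : Good (p + 2) Mn Lk) {M : Net (p + 2) (Nd Mn Lk)}
    (hM : ∀ x, val (M.σ x) = sg Lk (val x)) (z : MC → Equiv.Perm (Fin (p + 2)))
    (z0 : ∀ g, z g (fi p 0) = fi p 0) (z1 : ∀ g, z g (fi p 1) = fi p 1)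
    (hz : ∀ ψ ∈ Lk, z ψ.1.1 (fi p ψ.1.2) = z ψ.2.1 (fi p ψ.2.2)) :
    StarColourable M.graph (p + 2) := by
  classical
  let π : Nd Mn Lk → Equiv.Perm (Fin (p + 2)) := fun n =>
    if n.1.1.2 = 0 then z n.1.1.1 else Equiv.swap (fi p 2) (z n.1.1.1 (fi p n.1.1.2))
  have hfi : ∀ i j, i < p + 2 → j < p + 2 → i ≠ j → fi p i ≠ fi p j := by
    intro i j hi hj hij h
    have := congrArg Fin.val h
    rw [fi_val hi, fi_val hj] at this
    exact hij this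
  have key : ∀ ψ ∈ Lk, ∀ b, ∀ X Y : Nd Mn Lk × Tri (p + 2), val X = (R ψ b).1 → val Y = (R ψ b).2 →
      mapT (π Y.1) Y.2 = mapT (π X.1) X.2 := by
    intro ψ hψ b X Y hX hY
    have r1 := H.r1 ψ hψ
    have r2 := H.r2 ψ hψ
    have w0 : z ψ.1.1 (fi p ψ.1.2) ≠ fi p 0 := by
      intro h
      rw [← z0 ψ.1.1] at h
      exact hfi _ _ (by omega) (by omega) (by omega) ((z ψ.1.1).injective h)
    have w1 : z ψ.1.1 (fi p ψ.1.2) ≠ fi p 1 := by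
      intro h
      rw [← z1 ψ.1.1] at h
      exact hfi _ _ (by omega) (by omega) (by omega) ((z ψ.1.1).injective h)
    have s0 : Equiv.swap (fi p 2) (z ψ.1.1 (fi p ψ.1.2)) (fi p 0) = fi p 0 :=
      Equiv.swap_apply_of_ne_of_ne (hfi _ _ (by omega) (by omega) (by omega)) w0.symm
    have s1 : Equiv.swap (fi p 2) (z ψ.1.1 (fi p ψ.1.2)) (fi p 1) = fi p 1 :=
      Equiv.swap_apply_of_ne_of_ne (hfi _ _ (by omega) (by omega) (by omega)) w1.symm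
    have s2 : Equiv.swap (fi p 2) (z ψ.1.1 (fi p ψ.1.2)) (fi p 2) = z ψ.1.1 (fi p ψ.1.2) :=
      Equiv.swap_apply_left _ _
    have hYn : Y.1.1 = ψ := by
      have := congrArg (fun x : FC => x.1) hY
      exact this.trans (Good.snd_node ψ b)
    have πY : π Y.1 = Equiv.swap (fi p 2) (z ψ.1.1 (fi p ψ.1.2)) := by
      simp only [π]
      rw [hYn, if_neg (by omega)]
    have hzψ := hz ψ hψ
    cases b
    · have a1 : X.1.1 = mn ψ.2.1 := congrArg (fun x : FC => x.1) hX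
      have a2 : X.2.a = fi p 0 := fi_eq (congrArg (fun x : FC => x.2.1) hX)
      have a3 : X.2.b = fi p 1 := fi_eq (congrArg (fun x : FC => x.2.2.1) hX)
      have a4 : X.2.c = fi p ψ.2.2 := fi_eq (congrArg (fun x : FC => x.2.2.2) hX)
      have b2 : Y.2.a = fi p 0 := fi_eq (congrArg (fun x : FC => x.2.1) hY)
      have b3 : Y.2.b = fi p 1 := fi_eq (congrArg (fun x : FC => x.2.2.1) hY)
      have b4 : Y.2.c = fi p 2 := fi_eq (congrArg (fun x : FC => x.2.2.2) hY)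
      have πX : π X.1 = z ψ.2.1 := by
        simp only [π]
        rw [a1]
        exact if_pos rfl
      rw [πX, πY]
      apply Tri.ext
      · change Equiv.swap _ _ Y.2.a = z _ X.2.a
        rw [a2, b2, z0, s0]
      · change Equiv.swap _ _ Y.2.b = z _ X.2.b
        rw [a3, b3, z1, s1]
      · change Equiv.swap _ _ Y.2.c = z _ X.2.c
        rw [a4, b4, s2, hzψ]
    · have a1 : X.1.1 = mn ψ.1.1 := congrArg (fun x : FC => x.1) hX
      have a2 : X.2.a = fi p 1 := fi_eq (congrArg (fun x : FC => x.2.1) hX)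
      have a3 : X.2.b = fi p 0 := fi_eq (congrArg (fun x : FC => x.2.2.1) hX)
      have a4 : X.2.c = fi p ψ.1.2 := fi_eq (congrArg (fun x : FC => x.2.2.2) hX)
      have b2 : Y.2.a = fi p 1 := fi_eq (congrArg (fun x : FC => x.2.1) hY)
      have b3 : Y.2.b = fi p 0 := fi_eq (congrArg (fun x : FC => x.2.2.1) hY)
      have b4 : Y.2.c = fi p 2 := fi_eq (congrArg (fun x : FC => x.2.2.2) hY)
      have πX : π X.1 = z ψ.1.1 := by
        simp only [π]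
        rw [a1]
        exact if_pos rfl
      rw [πX, πY]
      apply Tri.ext
      · change Equiv.swap _ _ Y.2.a = z _ X.2.a
        rw [a2, b2, z1, s1]
      · change Equiv.swap _ _ Y.2.b = z _ X.2.b
        rw [a3, b3, z0, s0]
      · change Equiv.swap _ _ Y.2.c = z _ X.2.c
        rw [a4, b4, s2]
  refine M.complete π fun x hx => ?_
  rcases H.sg_cases (val x) with ⟨q, hq, h1, h2⟩ | ⟨q, hq, h1, h2⟩ | h
  · obtain ⟨ψ, hψ, b, rfl⟩ := mem_prs.1 hq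
    exact key ψ hψ b x (M.σ x) h1 ((hM x).trans h2)
  · obtain ⟨ψ, hψ, b, rfl⟩ := mem_prs.1 hq
    exact (key ψ hψ b (M.σ x) x ((hM x).trans h2) h1).symm
  · exact absurd (val_inj ((hM x).trans h)) hx

end Pool.Agent.Q227.ST
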