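import Pool.Agent.Q227.ST.B3
import Pool.Agent.H692R2.Col

/-!
# The links of a graph which has to be coloured
-/

set_option autoImplicit false

namespace Pool.Agent.Q227.ST

open Pool.Agent.H692R2

/-- the names of the vertices -/
def Wn (E : List (ℕ × ℕ)) : List ℕ := E.map Prod.fst ++ E.map Prod.snd

/-- the links along the chains -/
def chn (p : ℕ) (E : List (ℕ × ℕ)) : List NC :=
  (Wn E).flatMap fun v => (List.range (E.length - 1)).flatMap fun l =>
    (List.range (p - 1)).map fun j => (((v + 1, l), j + 3), ((v + 1, l + 1), j + 3))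

/-- the links of the edges -/
def edg (E : List (ℕ × ℕ)) : List NC :=
  E.zipIdx.flatMap fun q => [(((q.1.1 + 1, q.2), 2), ((0, q.2), 2)),
    (((0, q.2), 3), ((q.1.2 + 1, q.2), 2))]

/-- the links -/
def Lkk (p : ℕ) (E : List (ℕ × ℕ)) : List NC := chn p E ++ edg E

/-- the main nodes -/
def Mnn (E : List (ℕ × ℕ)) : List MC := (0 :: (Wn E).map (· + 1)) ×ˢ List.range E.length

variable {p : ℕ} {E : List (ℕ × ℕ)}

theorem mem_Mnn {g : MC} : g ∈ Mnn E ↔ (g.1 = 0 ∨ ∃ v ∈ Wn E, g.1 = v + 1) ∧ g.2 < E.length := by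
  obtain ⟨a, b⟩ := g
  unfold Mnn
  refine List.pair_mem_product.trans ?_
  rw [List.mem_cons, List.mem_map, List.mem_range]
  constructor
  · rintro ⟨h | ⟨v, hv, h⟩, h2⟩
    · exact ⟨Or.inl h, h2⟩
    · exact ⟨Or.inr ⟨v, hv, h.symm⟩, h2⟩
  · rintro ⟨h | ⟨v, hv, h⟩, h2⟩
    · exact ⟨Or.inl h, h2⟩
    · exact ⟨Or.inr ⟨v, hv, h.symm⟩, h2⟩

theorem mem_chn {ψ : NC} : ψ ∈ chn p E ↔ ∃ v ∈ Wn E, ∃ l, l + 1 < E.length ∧
    ∃ j, 3 ≤ j ∧ j < p + 2 ∧ ψ = (((v + 1, l), j), ((v + 1, l + 1), j)) := by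
  unfold chn
  simp only [List.mem_flatMap, List.mem_map, List.mem_range]
  constructor
  · rintro ⟨v, hv, l, hl, j, hj, rfl⟩
    exact ⟨v, hv, l, by omega, j + 3, by omega, by omega, rfl⟩
  · rintro ⟨v, hv, l, hl, j, hj, hj2, rfl⟩
    refine ⟨v, hv, l, by omega, j - 3, by omega, ?_⟩
    have : j - 3 + 3 = j := by omega
    rw [this]

theorem mem_edg {ψ : NC} : ψ ∈ edg E ↔ ∃ l, ∃ h : l < E.length,
    ψ = (((E[l].1 + 1, l), 2), ((0, l), 2)) ∨ ψ = (((0, l), 3), ((E[l].2 + 1, l), 2)) := by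
  unfold edg
  simp only [List.mem_flatMap, List.mem_cons, List.not_mem_nil, or_false]
  constructor
  · rintro ⟨⟨e, l⟩, he, h⟩
    obtain ⟨h1, h2⟩ := List.mem_zipIdx' he
    rw [h2] at h
    exact ⟨l, h1, h⟩
  · rintro ⟨l, h, h2⟩
    exact ⟨(E[l], l), by simp [List.mem_zipIdx_iff_getElem?, List.getElem?_eq_getElem h], h2⟩

theorem mem_Wn1 {l : ℕ} (h : l < E.length) : E[l].1 ∈ Wn E :=
  List.mem_append_left _ (List.mem_map.2 ⟨_, List.getElem_mem h, rfl⟩)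

theorem mem_Wn2 {l : ℕ} (h : l < E.length) : E[l].2 ∈ Wn E :=
  List.mem_append_right _ (List.mem_map.2 ⟨_, List.getElem_mem h, rfl⟩)

theorem good (hp : 3 ≤ p) (E : List (ℕ × ℕ)) : Good (p + 2) (Mnn E) (Lkk p E) := by
  have hmem : ∀ ψ, ψ ∈ Lkk p E ↔ (∃ v ∈ Wn E, ∃ l, l + 1 < E.length ∧
      ∃ j, 3 ≤ j ∧ j < p + 2 ∧ ψ = (((v + 1, l), j), ((v + 1, l + 1), j))) ∨
      ∃ l, ∃ h : l < E.length,
        ψ = (((E[l].1 + 1, l), 2), ((0, l), 2)) ∨ ψ = (((0, l), 3), ((E[l].2 + 1, l), 2)) := by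
    intro ψ
    unfold Lkk
    rw [List.mem_append, mem_chn, mem_edg]
  refine ⟨?_, ?_, ?_, ?_, ?_, ?_, ?_⟩
  · intro ψ hψ
    rcases (hmem ψ).1 hψ with ⟨v, hv, l, hl, j, h1, h2, rfl⟩ | ⟨l, hl, rfl | rfl⟩
    · exact ⟨by simp only; omega, h2⟩
    · exact ⟨le_rfl, by simp only; omega⟩
    · exact ⟨by simp only; omega, by simp only; omega⟩
  · intro ψ hψ
    rcases (hmem ψ).1 hψ with ⟨v, hv, l, hl, j, h1, h2, rfl⟩ | ⟨l, hl, rfl | rfl⟩
    · exact ⟨by simp only; omega, h2⟩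
    · exact ⟨le_rfl, by simp only; omega⟩
    · exact ⟨by simp only; omega, by simp only; omega⟩
  · intro ψ hψ χ hχ h
    rcases (hmem ψ).1 hψ with ⟨v, hv, l, hl, j, h1, h2, rfl⟩ | ⟨l, hl, rfl | rfl⟩ <;>
      rcases (hmem χ).1 hχ with ⟨v', hv', l', hl', j', h1', h2', rfl⟩ | ⟨l', hl', rfl | rfl⟩ <;>
      simp only [Prod.mk.injEq] at h
    · obtain ⟨⟨a, b⟩, c⟩ := h
      have : v = v' := by omega
      subst this b c
      rfl
    · omega
    · omega
    · omega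
    · obtain ⟨⟨a, b⟩, c⟩ := h
      subst b
      rfl
    · omega
    · omega
    · omega
    · obtain ⟨⟨a, b⟩, c⟩ := h
      subst b
      rfl
  · intro ψ hψ χ hχ h
    rcases (hmem ψ).1 hψ with ⟨v, hv, l, hl, j, h1, h2, rfl⟩ | ⟨l, hl, rfl | rfl⟩ <;>
      rcases (hmem χ).1 hχ with ⟨v', hv', l', hl', j', h1', h2', rfl⟩ | ⟨l', hl', rfl | rfl⟩ <;>
      simp only [Prod.mk.injEq] at h
    · obtain ⟨⟨a, b⟩, c⟩ := h
      have : v = v' := by omega
      have b' : l = l' := by omega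
      subst this b' c
      rfl
    · omega
    · omega
    · omega
    · obtain ⟨⟨a, b⟩, c⟩ := h
      subst b
      rfl
    · omega
    · omega
    · omega
    · obtain ⟨⟨a, b⟩, c⟩ := h
      subst b
      rfl
  · intro ψ hψ h
    rcases (hmem ψ).1 hψ with ⟨v, hv, l, hl, j, h1, h2, rfl⟩ | ⟨l, hl, rfl | rfl⟩ <;>
      simp only [Prod.mk.injEq] at h <;> omega
  · intro ψ hψ
    rcases (hmem ψ).1 hψ with ⟨v, hv, l, hl, j, h1, h2, rfl⟩ | ⟨l, hl, rfl | rfl⟩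
    · exact mem_Mnn.2 ⟨Or.inr ⟨v, hv, rfl⟩, by simp only; omega⟩
    · exact mem_Mnn.2 ⟨Or.inr ⟨_, mem_Wn1 hl, rfl⟩, hl⟩
    · exact mem_Mnn.2 ⟨Or.inl rfl, hl⟩
  · intro ψ hψ
    rcases (hmem ψ).1 hψ with ⟨v, hv, l, hl, j, h1, h2, rfl⟩ | ⟨l, hl, rfl | rfl⟩
    · exact mem_Mnn.2 ⟨Or.inr ⟨v, hv, rfl⟩, hl⟩
    · exact mem_Mnn.2 ⟨Or.inl rfl, hl⟩
    · exact mem_Mnn.2 ⟨Or.inr ⟨_, mem_Wn2 hl, rfl⟩, hl⟩

/-- the third colours at an arc can be renamed -/
theorem exists_phi (hp : 0 < p) : ∃ φ : Tri (p + 2) → Fin p,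
    ∀ s t, Arc s t → φ s = φ t → s.c = t.c := by
  classical
  have h : ∀ a b : Fin (p + 2), ∃ e : Fin (p + 2) → Fin p, a ≠ b →
      ∀ c c', c ≠ a → c ≠ b → c' ≠ a → c' ≠ b → e c = e c' → c = c' := by
    intro a b
    by_cases hab : a = b
    · exact ⟨fun _ => ⟨0, hp⟩, fun h => absurd hab h⟩
    · have hc : ((Finset.univ.erase a).erase b).card = p := by
        rw [Finset.card_erase_of_mem, Finset.card_erase_of_mem (Finset.mem_univ _),
          Finset.card_univ, Fintype.card_fin]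
        · omega
        · exact Finset.mem_erase.2 ⟨Ne.symm hab, Finset.mem_univ _⟩
      let g := Finset.equivFinOfCardEq hc
      refine ⟨fun c => if h : c ∈ (Finset.univ.erase a).erase b then g ⟨c, h⟩ else ⟨0, hp⟩,
        fun _ c c' h1 h2 h3 h4 h5 => ?_⟩
      have m1 : c ∈ (Finset.univ.erase a).erase b :=
        Finset.mem_erase.2 ⟨h2, Finset.mem_erase.2 ⟨h1, Finset.mem_univ _⟩⟩
      have m2 : c' ∈ (Finset.univ.erase a).erase b :=
        Finset.mem_erase.2 ⟨h4, Finset.mem_erase.2 ⟨h3, Finset.mem_univ _⟩⟩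
      simp only [dif_pos m1, dif_pos m2] at h5
      exact congrArg Subtype.val (g.injective h5)
  choose e he using h
  refine ⟨fun t => e t.a t.b t.c, fun s t hst h => ?_⟩
  have h2 : e s.a s.b s.c = e s.a s.b t.c := by
    have h' : e s.a s.b s.c = e t.a t.b t.c := h
    rw [h', hst.1, hst.2]
  refine he s.a s.b s.ab s.c t.c s.ac.symm s.bc.symm ?_ ?_ h2
  · rw [hst.1]
    exact t.ac.symm
  · rw [hst.2]
    exact t.bc.symm

variable {M : Net (p + 2) (Nd (Mnn E) (Lkk p E))}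

theorem col_of_star (hp : 3 ≤ p) (hM : ∀ x, val (M.σ x) = sg (Lkk p E) (val x))
    (h : StarColourable M.graph (p + 2)) : Col p E := by
  obtain ⟨Λ, h1, h2, h3⟩ := sound_lk hp (good hp E) hM h
  obtain ⟨φ, hφ⟩ := exists_phi (p := p) (by omega)
  have hch : ∀ v ∈ Wn E, ∀ l, l < E.length → Λ (v + 1, l) 2 = Λ (v + 1, 0) 2 := by
    intro v hv l
    induction l with
    | zero => intro _; rfl
    | succ l ih =>
      intro hl
      rw [← ih (by omega)]
      symm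
      refine h2 _ (mem_Mnn.2 ⟨Or.inr ⟨v, hv, rfl⟩, by simp only; omega⟩) _
        (mem_Mnn.2 ⟨Or.inr ⟨v, hv, rfl⟩, hl⟩) fun j hj hj2 => ?_
      exact h3 _ (List.mem_append_left _ (mem_chn.2 ⟨v, hv, l, hl, j, hj, hj2, rfl⟩))
  refine ⟨fun v => φ (Λ (v + 1, 0) 2), fun e he heq => ?_⟩
  obtain ⟨l, hl, rfl⟩ := List.getElem_of_mem he
  have e1 : Λ (E[l].1 + 1, l) 2 = Λ (0, l) 2 :=
    h3 _ (List.mem_append_right _ (mem_edg.2 ⟨l, hl, Or.inl rfl⟩))
  have e2 : Λ (0, l) 3 = Λ (E[l].2 + 1, l) 2 :=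
    h3 _ (List.mem_append_right _ (mem_edg.2 ⟨l, hl, Or.inr rfl⟩))
  rw [hch _ (mem_Wn1 hl) l hl] at e1
  rw [hch _ (mem_Wn2 hl) l hl] at e2
  simp only at heq
  rw [e1, ← e2] at heq
  obtain ⟨h4, h5⟩ := h1 (0, l) (mem_Mnn.2 ⟨Or.inl rfl, hl⟩) 2 3 le_rfl (by omega) (by omega)
    (by omega)
  have h6 := h5 (h4.eq (hφ _ _ h4 heq))
  omega

theorem star_of_col (hp : 3 ≤ p) (hM : ∀ x, val (M.σ x) = sg (Lkk p E) (val x))
    (h : Col p E) : StarColourable M.graph (p + 2) := by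
  classical
  obtain ⟨c, hc⟩ := h
  let q : ℕ → Fin (p + 2) := fun v => ⟨(c v).1 + 2, by omega⟩
  have hfi : ∀ i j, i < p + 2 → j < p + 2 → i ≠ j → fi p i ≠ fi p j := by
    intro i j hi hj hij h
    have := congrArg Fin.val h
    rw [fi_val hi, fi_val hj] at this
    exact hij this
  have hq : ∀ v j, j < 2 → fi p j ≠ q v := by
    intro v j hj h
    have := congrArg Fin.val h
    rw [fi_val (by omega)] at this
    simp only [q] at this
    omega
  let s : ℕ → Equiv.Perm (Fin (p + 2)) := fun v => Equiv.swap (fi p 2) (q v)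
  have s01 : ∀ v j, j < 2 → s v (fi p j) = fi p j := fun v j hj =>
    Equiv.swap_apply_of_ne_of_ne (hfi _ _ (by omega) (by omega) (by omega)) (hq v j hj)
  have s2 : ∀ v, s v (fi p 2) = q v := fun v => Equiv.swap_apply_left _ _
  let z : MC → Equiv.Perm (Fin (p + 2)) := fun g =>
    if g.1 = 0 then
      Equiv.swap (q (E.getD g.2 (0, 0)).2) (s (E.getD g.2 (0, 0)).1 (fi p 3)) *
        s (E.getD g.2 (0, 0)).1
    else s (g.1 - 1)
  have z01 : ∀ g j, j < 2 → z g (fi p j) = fi p j := by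
    intro g j hj
    simp only [z]
    split_ifs with hg
    · rw [Equiv.Perm.mul_apply, s01 _ _ hj]
      refine Equiv.swap_apply_of_ne_of_ne (hq _ _ hj) ?_
      intro h
      rw [← s01 (E.getD g.2 (0, 0)).1 j hj] at h
      exact hfi _ _ (by omega) (by omega) (by omega) ((s _).injective h)
    · exact s01 _ _ hj
  have zv : ∀ v l, z (v + 1, l) = s v := by
    intro v l
    simp only [z]
    rw [if_neg (by omega)]
    rfl
  have zC : ∀ l (hl : l < E.length), z (0, l) =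
      Equiv.swap (q E[l].2) (s E[l].1 (fi p 3)) * s E[l].1 := by
    intro l hl
    simp only [z]
    rw [if_pos trivial, List.getD_eq_getElem E (0, 0) hl]
  refine complete_lk hp (good hp E) hM z (fun g => z01 g 0 (by omega)) (fun g => z01 g 1 (by omega))
    fun ψ hψ => ?_
  rcases List.mem_append.1 hψ with h | h
  · obtain ⟨v, hv, l, hl, j, hj, hj2, rfl⟩ := mem_chn.1 h
    rw [zv, zv]
  · obtain ⟨l, hl, rfl | rfl⟩ := mem_edg.1 h
    · rw [zv, zC l hl, Equiv.Perm.mul_apply]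
      change s E[l].1 (fi p 2) = Equiv.swap (q E[l].2) (s E[l].1 (fi p 3)) (s E[l].1 (fi p 2))
      refine (Equiv.swap_apply_of_ne_of_ne ?_ ?_).symm
      · rw [s2]
        intro h2
        have := congrArg Fin.val h2
        simp only [q] at this
        exact hc E[l] (List.getElem_mem hl) (Fin.ext (by omega))
      · intro h2
        exact hfi _ _ (by omega) (by omega) (by omega) ((s _).injective h2)
    · rw [zv, zC l hl, Equiv.Perm.mul_apply]
      change Equiv.swap (q E[l].2) (s E[l].1 (fi p 3)) (s E[l].1 (fi p 3)) = s E[l].2 (fi p 2)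
      rw [Equiv.swap_apply_right, s2]

end Pool.Agent.Q227.ST
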