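import Pool.Agent.Q227.ST.B4
import Pool.Agent.Q227.SI.Mem
import Pool.Agent.H612.CollectPoly
import Pool.Agent.H673R2.HardOn

/-!
# Star colourability: running time, membership in `NP`, hardness
-/

set_option autoImplicit false

namespace Pool.Agent.Q227.ST

open Pool.Agent.NPC Pool.Agent.NPC.H679 Pool.Agent.H679R2 Pool.Agent.H692R2 Pool.Agent.H673R2

/-! ### Membership in `NP` -/

/-- the test of a list of pairs (vertex, colour) -/
def scb (k : ℕ) (I : List ℕ × List (ℕ × ℕ)) (w : List (ℕ × ℕ)) : Bool :=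
  (w.all fun q => decide (q.2 < k)) && ((I.1.all fun v => w.any fun q => decide (q.1 = v)) &&
    ((w ×ˢ w).all (fun t => !adjb I t.1.1 t.2.1 || !decide (t.1.2 = t.2.2)) &&
      (w ×ˢ (w ×ˢ (w ×ˢ w))).all fun t =>
        !(adjb I t.1.1 t.2.1.1 && (adjb I t.2.1.1 t.2.2.1.1 && adjb I t.2.2.1.1 t.2.2.2.1)) ||
        (decide (t.1.1 = t.2.2.1.1) || (decide (t.1.1 = t.2.2.2.1) ||
          (decide (t.2.1.1 = t.2.2.2.1) ||
            !(decide (t.1.2 = t.2.2.1.2) && decide (t.2.1.2 = t.2.2.2.2)))))))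

theorem scb_poly (k : ℕ) :
    NPC.Poly (fun x : (List ℕ × List (ℕ × ℕ)) × List (ℕ × ℕ) => scb k x.1 x.2) := by
  have hI : NPC.Poly (fun x : (List ℕ × List (ℕ × ℕ)) × List (ℕ × ℕ) => x.1) := by fun_prop
  have hw : NPC.Poly (fun x : (List ℕ × List (ℕ × ℕ)) × List (ℕ × ℕ) => x.2) := by fun_prop
  unfold scb
  refine NPC.Poly.and ?_ (NPC.Poly.and ?_ (NPC.Poly.and ?_ ?_))
  · exact NPC.Poly.all (p := fun (x : (List ℕ × List (ℕ × ℕ)) × List (ℕ × ℕ)) (q : ℕ × ℕ) =>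
      decide (q.2 < k)) hw (NPC.Poly.decide_lt (by fun_prop) (by fun_prop))
  · refine NPC.Poly.all (p := fun (x : (List ℕ × List (ℕ × ℕ)) × List (ℕ × ℕ)) (v : ℕ) =>
      x.2.any (fun q => decide (q.1 = v))) (NPC.Poly.fst hI) ?_
    exact NPC.Poly.any (p := fun (x : ((List ℕ × List (ℕ × ℕ)) × List (ℕ × ℕ)) × ℕ) (q : ℕ × ℕ) =>
      decide (q.1 = x.2)) (by fun_prop) (NPC.Poly.decide_eq (by fun_prop) (by fun_prop))
  · refine NPC.Poly.all (p := fun (x : (List ℕ × List (ℕ × ℕ)) × List (ℕ × ℕ))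
      (t : (ℕ × ℕ) × (ℕ × ℕ)) => !adjb x.1 t.1.1 t.2.1 || !decide (t.1.2 = t.2.2))
      (R671.poly_product hw hw) ?_
    exact NPC.Poly.or (NPC.Poly.not (adjb_poly (by fun_prop) (by fun_prop) (by fun_prop)))
      (NPC.Poly.not (NPC.Poly.decide_eq (by fun_prop) (by fun_prop)))
  · refine NPC.Poly.all (p := fun (x : (List ℕ × List (ℕ × ℕ)) × List (ℕ × ℕ))
      (t : (ℕ × ℕ) × (ℕ × ℕ) × (ℕ × ℕ) × (ℕ × ℕ)) =>
        !(adjb x.1 t.1.1 t.2.1.1 && (adjb x.1 t.2.1.1 t.2.2.1.1 &&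
          adjb x.1 t.2.2.1.1 t.2.2.2.1)) ||
        (decide (t.1.1 = t.2.2.1.1) || (decide (t.1.1 = t.2.2.2.1) ||
          (decide (t.2.1.1 = t.2.2.2.1) ||
            !(decide (t.1.2 = t.2.2.1.2) && decide (t.2.1.2 = t.2.2.2.2))))))
      (R671.poly_product hw (R671.poly_product hw (R671.poly_product hw hw))) ?_
    have a1 : NPC.Poly (fun a : ((List ℕ × List (ℕ × ℕ)) × List (ℕ × ℕ)) ×
        ((ℕ × ℕ) × (ℕ × ℕ) × (ℕ × ℕ) × (ℕ × ℕ)) => adjb a.1.1 a.2.1.1 a.2.2.1.1) :=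
      adjb_poly (by fun_prop) (by fun_prop) (by fun_prop)
    have a2 : NPC.Poly (fun a : ((List ℕ × List (ℕ × ℕ)) × List (ℕ × ℕ)) ×
        ((ℕ × ℕ) × (ℕ × ℕ) × (ℕ × ℕ) × (ℕ × ℕ)) => adjb a.1.1 a.2.2.1.1 a.2.2.2.1.1) :=
      adjb_poly (by fun_prop) (by fun_prop) (by fun_prop)
    have a3 : NPC.Poly (fun a : ((List ℕ × List (ℕ × ℕ)) × List (ℕ × ℕ)) ×
        ((ℕ × ℕ) × (ℕ × ℕ) × (ℕ × ℕ) × (ℕ × ℕ)) => adjb a.1.1 a.2.2.2.1.1 a.2.2.2.2.1) :=
      adjb_poly (by fun_prop) (by fun_prop) (by fun_prop)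
    refine NPC.Poly.or (NPC.Poly.not (NPC.Poly.and a1 (NPC.Poly.and a2 a3))) ?_
    refine NPC.Poly.or (NPC.Poly.decide_eq (by fun_prop) (by fun_prop)) (NPC.Poly.or
      (NPC.Poly.decide_eq (by fun_prop) (by fun_prop)) (NPC.Poly.or
        (NPC.Poly.decide_eq (by fun_prop) (by fun_prop)) (NPC.Poly.not (NPC.Poly.and
          (NPC.Poly.decide_eq (by fun_prop) (by fun_prop))
          (NPC.Poly.decide_eq (by fun_prop) (by fun_prop))))))

theorem scb_iff {k : ℕ} {I : List ℕ × List (ℕ × ℕ)} {w : List (ℕ × ℕ)} : scb k I w = true ↔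
    (∀ q ∈ w, q.2 < k) ∧ (∀ v ∈ I.1, ∃ q ∈ w, q.1 = v) ∧
    (∀ a ∈ w, ∀ b ∈ w, adjb I a.1 b.1 = true → a.2 ≠ b.2) ∧
    ∀ a ∈ w, ∀ b ∈ w, ∀ c ∈ w, ∀ d ∈ w, adjb I a.1 b.1 = true → adjb I b.1 c.1 = true →
      adjb I c.1 d.1 = true → a.1 ≠ c.1 → a.1 ≠ d.1 → b.1 ≠ d.1 → ¬ (a.2 = c.2 ∧ b.2 = d.2) := by
  unfold scb
  rw [Bool.and_eq_true, Bool.and_eq_true, Bool.and_eq_true, List.all_eq_true, List.all_eq_true,
    List.all_eq_true, List.all_eq_true]
  refine and_congr (by simp only [decide_eq_true_eq]) (and_congr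
    (by simp only [List.any_eq_true, decide_eq_true_eq]) (and_congr ?_ ?_))
  · constructor
    · intro h a ha b hb h1 h2
      have := h (a, b) (List.pair_mem_product.2 ⟨ha, hb⟩)
      simp [h1, h2] at this
    · rintro h ⟨a, b⟩ hab
      obtain ⟨ha, hb⟩ := List.pair_mem_product.1 hab
      have := h a ha b hb
      simp only [Bool.or_eq_true, Bool.not_eq_true', decide_eq_false_iff_not]
      by_cases h1 : adjb I a.1 b.1 = true
      · exact Or.inr (this h1)
      · exact Or.inl (by simpa using h1)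
  · constructor
    · intro h a ha b hb c hc d hd h1 h2 h3 h4 h5 h6 h7
      have := h (a, b, c, d) (List.pair_mem_product.2 ⟨ha, List.pair_mem_product.2 ⟨hb,
        List.pair_mem_product.2 ⟨hc, hd⟩⟩⟩)
      simp [h1, h2, h3, h4, h5, h6, h7] at this
    · rintro h ⟨a, b, c, d⟩ hab
      obtain ⟨ha, hab⟩ := List.pair_mem_product.1 hab
      obtain ⟨hb, hab⟩ := List.pair_mem_product.1 hab
      obtain ⟨hc, hd⟩ := List.pair_mem_product.1 hab
      have := h a ha b hb c hc d hd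
      simp only [Bool.or_eq_true, Bool.not_eq_true', decide_eq_true_eq, Bool.and_eq_false_iff,
        decide_eq_false_iff_not]
      by_cases h1 : adjb I a.1 b.1 = true
      · by_cases h2 : adjb I b.1 c.1 = true
        · by_cases h3 : adjb I c.1 d.1 = true
          · by_cases h4 : a.1 = c.1
            · exact Or.inr (Or.inl h4)
            · by_cases h5 : a.1 = d.1
              · exact Or.inr (Or.inr (Or.inl h5))
              · by_cases h6 : b.1 = d.1
                · exact Or.inr (Or.inr (Or.inr (Or.inl h6)))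
                · have h7 := this h1 h2 h3 h4 h5 h6
                  rw [not_and_or] at h7
                  exact Or.inr (Or.inr (Or.inr (Or.inr h7)))
          · exact Or.inl (Or.inr (Or.inr (by simpa using h3)))
        · exact Or.inl (Or.inr (Or.inl (by simpa using h2)))
      · exact Or.inl (Or.inl (by simpa using h1))

theorem star_iff_cert (k : ℕ) (I : List ℕ × List (ℕ × ℕ)) : StarColourable (toGraph I) k ↔
    ∃ w : List (ℕ × ℕ), sz w ≤ (Polynomial.X * (Polynomial.X + Polynomial.C (4 * k + 3)) +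
      Polynomial.C 1 : Polynomial ℕ).eval (sz I) ∧ scb k I w = true := by
  constructor
  · rintro ⟨f, hf1, hf2⟩
    refine ⟨I.1.attach.map (fun v => (v.1, (f v).1)), ?_, ?_⟩
    · have hI : sz I = sz I.1 + sz I.2 + 1 := sz_pair I.1 I.2
      have h4 := sz_le_length_mul (I.1.attach.map (fun v => (v.1, (f v).1))) (sz I + (4 * k + 2))
        (fun q hq => by
          obtain ⟨v, -, rfl⟩ := List.mem_map.1 hq
          have h5 := sz_le_of_mem v.2
          have h6 := sz_nat_le (f v).1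
          have h8 := NPC.Poly.size_le_self (f v).1
          have h9 := (f v).2
          have h7 : sz ((v.1, (f v).1) : ℕ × ℕ) = sz v.1 + sz (f v).1 + 1 := sz_pair _ _
          omega)
      have h5 := length_lt_sz I.1
      rw [List.length_map, List.length_attach] at h4
      simp only [Polynomial.eval_add, Polynomial.eval_mul, Polynomial.eval_X,
        Polynomial.eval_C]
      exact h4.trans (Nat.add_le_add_right (Nat.mul_le_mul (by omega) (by omega)) 1)
    · rw [scb_iff]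
      simp only [List.mem_map, List.mem_attach, true_and]
      refine ⟨?_, ?_, ?_, ?_⟩
      · rintro _ ⟨v, rfl⟩
        exact (f v).2
      · intro v hv
        exact ⟨_, ⟨⟨v, hv⟩, rfl⟩, rfl⟩
      · rintro _ ⟨a, rfl⟩ _ ⟨b, rfl⟩ h1 h2
        exact hf1 a b ((adjb_iff I a b).1 h1) (Fin.ext h2)
      · rintro _ ⟨a, rfl⟩ _ ⟨b, rfl⟩ _ ⟨c, rfl⟩ _ ⟨d, rfl⟩ h1 h2 h3 h4 h5 h6 ⟨h7, h8⟩
        exact hf2 a b c d ((adjb_iff I a b).1 h1) ((adjb_iff I b c).1 h2) ((adjb_iff I c d).1 h3)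
          (fun h => h4 (congrArg Subtype.val h)) (fun h => h5 (congrArg Subtype.val h))
          (fun h => h6 (congrArg Subtype.val h)) ⟨Fin.ext h7, Fin.ext h8⟩
  · rintro ⟨w, -, hw⟩
    rw [scb_iff] at hw
    obtain ⟨h0, h1, h2, h3⟩ := hw
    choose q hq1 hq2 using fun v : {v : ℕ // v ∈ I.1} => h1 v.1 v.2
    refine ⟨fun v => ⟨(q v).2, h0 _ (hq1 v)⟩, ?_, ?_⟩
    · intro u v huv h
      rw [← adjb_iff] at huv
      exact h2 _ (hq1 u) _ (hq1 v) (by rw [hq2, hq2]; exact huv) (congrArg Fin.val h)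
    · intro a b c d hab hbc hcd hac had hbd h
      rw [← adjb_iff] at hab hbc hcd
      refine h3 _ (hq1 a) _ (hq1 b) _ (hq1 c) _ (hq1 d) (by rw [hq2, hq2]; exact hab)
        (by rw [hq2, hq2]; exact hbc) (by rw [hq2, hq2]; exact hcd) ?_ ?_ ?_
        ⟨congrArg Fin.val h.1, congrArg Fin.val h.2⟩
      · rw [hq2, hq2]
        exact fun h => hac (Subtype.ext h)
      · rw [hq2, hq2]
        exact fun h => had (Subtype.ext h)
      · rw [hq2, hq2]
        exact fun h => hbd (Subtype.ext h)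

theorem inNPP_star (k : ℕ) :
    InNPP (fun I : List ℕ × List (ℕ × ℕ) => StarColourable (toGraph I) k) :=
  inNPP_of (R := fun x : (List ℕ × List (ℕ × ℕ)) × List (ℕ × ℕ) => scb k x.1 x.2) (scb_poly k) _
    fun I => star_iff_cert k I

/-! ### Running time of the reduction -/

/-- the instance -/
def inst (p : ℕ) (E : List (ℕ × ℕ)) : List ℕ × List (ℕ × ℕ) :=
  mkG (VL (p + 2) (Mnn E) (Lkk p E)) (adjB (p + 2) (Lkk p E))

theorem Wn_poly : NPC.Poly Wn := by
  unfold Wn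
  fun_prop

theorem chn_poly (p : ℕ) : NPC.Poly (chn p) := by
  unfold chn
  refine NPC.Poly.flatMap (F := fun (E : List (ℕ × ℕ)) (v : ℕ) =>
    (List.range (E.length - 1)).flatMap fun l =>
      (List.range (p - 1)).map fun j => ((((v + 1, l), j + 3), ((v + 1, l + 1), j + 3)) : NC))
    Wn_poly ?_
  refine NPC.Poly.flatMap (F := fun (x : List (ℕ × ℕ) × ℕ) (l : ℕ) =>
      (List.range (p - 1)).map fun j => ((((x.2 + 1, l), j + 3), ((x.2 + 1, l + 1), j + 3)) : NC))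
    ?_ ?_
  · have h1 : UPoly (fun x : List (ℕ × ℕ) × ℕ => x.1.length - 1) :=
      UPoly.of_le (by fun_prop) (UPoly.length (NPC.Poly.fst NPC.Poly.id)) fun _ => Nat.sub_le _ _
    exact h1.range
  · refine NPC.Poly.map (F := fun (x : (List (ℕ × ℕ) × ℕ) × ℕ) (j : ℕ) =>
      ((((x.1.2 + 1, x.2), j + 3), ((x.1.2 + 1, x.2 + 1), j + 3)) : NC)) (NPC.Poly.const _) ?_
    fun_prop

theorem edg_poly : NPC.Poly edg := by
  unfold edg
  refine NPC.Poly.flatMap (F := fun (_ : List (ℕ × ℕ)) (q : (ℕ × ℕ) × ℕ) =>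
    ([(((q.1.1 + 1, q.2), 2), ((0, q.2), 2)), (((0, q.2), 3), ((q.1.2 + 1, q.2), 2))] : List NC))
    (NPC.Poly.zipIdx NPC.Poly.id) ?_
  fun_prop

theorem Lkk_poly (p : ℕ) : NPC.Poly (Lkk p) := NPC.Poly.append (chn_poly p) edg_poly

theorem Mnn_poly : NPC.Poly Mnn := by
  unfold Mnn
  refine R671.poly_product (NPC.Poly.cons (NPC.Poly.const 0) ?_)
    (UPoly.length NPC.Poly.id).range
  exact NPC.Poly.map (F := fun (_ : List (ℕ × ℕ)) (v : ℕ) => v + 1) Wn_poly (by fun_prop)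

theorem VL_poly {α : Type} [TEnc α] {Mn : α → List MC} {Lk : α → List NC} (hM : NPC.Poly Mn)
    (hL : NPC.Poly Lk) (k : ℕ) : NPC.Poly (fun a => VL k (Mn a) (Lk a)) := by
  unfold VL nds
  refine NPC.H612.poly_dedup (R671.poly_product (NPC.Poly.append ?_ hL) (NPC.Poly.const _))
  refine NPC.Poly.map (F := fun (_ : α) (g : MC) => mn g) hM ?_
  unfold mn
  fun_prop

theorem sg_poly {α : Type} [TEnc α] {Lk : α → List NC} {x : α → FC} (hL : NPC.Poly Lk)
    (hx : NPC.Poly x) : NPC.Poly (fun a => sg (Lk a) (x a)) := by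
  have hp : NPC.Poly (fun a => prs (Lk a)) := by
    unfold prs
    refine NPC.Poly.flatMap (F := fun (_ : α) (ψ : NC) =>
      ([((mn ψ.1.1, 1, 0, ψ.1.2), (ψ, 1, 0, 2)),
        ((mn ψ.2.1, 0, 1, ψ.2.2), (ψ, 0, 1, 2))] : List (FC × FC))) hL ?_
    unfold mn
    fun_prop
  unfold sg
  refine NPC.Poly.optElim (h := fun (a : α) (p : FC × FC) => if p.1 = x a then p.2 else p.1)
    (NPC.Poly.head? (NPC.Poly.filter (p := fun (a : α) (p : FC × FC) =>
      decide (p.1 = x a) || decide (p.2 = x a)) hp ?_)) hx ?_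
  · exact NPC.Poly.or (NPC.Poly.decide_eq (by fun_prop) (by fun_prop))
      (NPC.Poly.decide_eq (by fun_prop) (by fun_prop))
  · exact NPC.Poly.ite (NPC.Poly.decide_eq (by fun_prop) (by fun_prop)) (by fun_prop) (by fun_prop)

theorem rC_poly {α : Type} [TEnc α] {Lk : α → List NC} {x : α → FC} (hL : NPC.Poly Lk)
    (hx : NPC.Poly x) : NPC.Poly (fun a => rC (Lk a) (x a)) := by
  unfold rC
  have h := sg_poly hL hx
  refine sg_poly hL ?_
  unfold rotC
  exact NPC.Poly.pair (NPC.Poly.fst h) (NPC.Poly.pair (NPC.Poly.fst (NPC.Poly.snd (NPC.Poly.snd h)))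
    (NPC.Poly.pair (NPC.Poly.snd (NPC.Poly.snd (NPC.Poly.snd h))) (NPC.Poly.fst (NPC.Poly.snd h))))

theorem ptC_poly {α : Type} [TEnc α] {x : α → FC} (hx : NPC.Poly x) :
    NPC.Poly (fun a => ptC (x a)) := by
  unfold ptC
  exact NPC.Poly.pair (NPC.Poly.fst hx) (NPC.Poly.pair (NPC.Poly.fst (NPC.Poly.snd hx))
    (NPC.Poly.fst (NPC.Poly.snd (NPC.Poly.snd hx))))

theorem half_poly {α : Type} [TEnc α] {Lk : α → List NC} {u v : α → VC} (hL : NPC.Poly Lk)
    (hu : NPC.Poly u) (hv : NPC.Poly v) (k : ℕ) :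
    NPC.Poly (fun a => half k (Lk a) (u a) (v a)) := by
  unfold half
  refine NPC.Poly.any (p := fun (a : α) (c : ℕ) =>
    (!decide (c = (u a).2.1) && !decide (c = (u a).2.2)) &&
    (decide (ptC (rC (Lk a) ((u a).1, (u a).2.1, (u a).2.2, c)) = v a) ||
      decide (ptC (rC (Lk a) (rC (Lk a) ((u a).1, (u a).2.1, (u a).2.2, c))) = v a)))
    (NPC.Poly.const _) ?_
  have hL' : NPC.Poly (fun q : α × ℕ => Lk q.1) := hL.comp (NPC.Poly.fst NPC.Poly.id)
  have hu' : NPC.Poly (fun q : α × ℕ => u q.1) := hu.comp (NPC.Poly.fst NPC.Poly.id)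
  have hv' : NPC.Poly (fun q : α × ℕ => v q.1) := hv.comp (NPC.Poly.fst NPC.Poly.id)
  have hx : NPC.Poly (fun q : α × ℕ => (((u q.1).1, (u q.1).2.1, (u q.1).2.2, q.2) : FC)) := by
    fun_prop
  refine NPC.Poly.and (NPC.Poly.and (NPC.Poly.not (NPC.Poly.decide_eq (by fun_prop) (by fun_prop)))
    (NPC.Poly.not (NPC.Poly.decide_eq (by fun_prop) (by fun_prop)))) (NPC.Poly.or
      (NPC.Poly.decide_eq (ptC_poly (rC_poly hL' hx)) hv')
      (NPC.Poly.decide_eq (ptC_poly (rC_poly hL' (rC_poly hL' hx))) hv'))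

theorem adjB_poly {α : Type} [TEnc α] {Lk : α → List NC} {u v : α → VC} (hL : NPC.Poly Lk)
    (hu : NPC.Poly u) (hv : NPC.Poly v) (k : ℕ) :
    NPC.Poly (fun a => adjB k (Lk a) (u a) (v a)) := by
  unfold adjB
  exact NPC.Poly.and (NPC.Poly.not (NPC.Poly.decide_eq hu hv))
    (NPC.Poly.or (half_poly hL hu hv k) (half_poly hL hv hu k))

theorem inst_poly (p : ℕ) : NPC.Poly (inst p) := by
  unfold inst
  refine mkG_poly (α := List (ℕ × ℕ)) (L := fun E => VL (p + 2) (Mnn E) (Lkk p E))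
    (adj := fun E => adjB (p + 2) (Lkk p E)) (VL_poly Mnn_poly (Lkk_poly p) _) ?_
  exact adjB_poly ((Lkk_poly p).comp (NPC.Poly.fst NPC.Poly.id))
    (NPC.Poly.fst (NPC.Poly.snd NPC.Poly.id)) (NPC.Poly.snd (NPC.Poly.snd NPC.Poly.id)) _

theorem inst_correct {p : ℕ} (hp : 3 ≤ p) (E : List (ℕ × ℕ)) :
    (IsRegular (toGraph (inst p E)) (2 * p) ∧ StarFree (toGraph (inst p E)) (p + 1)) ∧
      (Col p E ↔ StarColourable (toGraph (inst p E)) (p + 2)) := by
  obtain ⟨M, hM⟩ := exists_net (by omega) (good hp E)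
  obtain ⟨e⟩ := graph_iso hM
  refine ⟨⟨IsRegular.iso e ?_, StarFree.iso e (net_free M (by omega))⟩,
    fun h => StarColourable.iso e (star_of_col hp hM h),
    fun h => col_of_star hp hM (StarColourable.iso e.symm h)⟩
  exact net_regular M

theorem hard_star {p : ℕ} (hp : 3 ≤ p) : NPHardOn
    (fun I : List ℕ × List (ℕ × ℕ) => IsRegular (toGraph I) (2 * p) ∧ StarFree (toGraph I) (p + 1))
    (fun I => StarColourable (toGraph I) (p + 2)) :=
  npHardOn_of (hardPr_col p hp) (inst_poly p) (fun E _ => (inst_correct hp E).1)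
    fun E _ => (inst_correct hp E).2

end Pool.Agent.Q227.ST
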